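import Mathlib

set_option autoImplicit false

/-!
# Homogeneous ideals, graded pieces of the quotient
-/

namespace Pool.Agent.helper62.BZ

open MvPolynomial

attribute [local instance] MvPolynomial.gradedAlgebra

noncomputable section

section general

variable {σ R : Type} [CommRing R]

lemma comp_mul {g : MvPolynomial σ R} {d : ℕ} (hg : g.IsHomogeneous d) (f : MvPolynomial σ R)
    (j : ℕ) : homogeneousComponent (j + d) (f * g) = homogeneousComponent j f * g := by
  classical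
  conv_lhs => rw [← sum_homogeneousComponent f, Finset.sum_mul, map_sum]
  have h1 : ∀ m, homogeneousComponent (j + d) (homogeneousComponent m f * g) =
      if m = j then homogeneousComponent j f * g else 0 := by
    intro m
    have h2 : (homogeneousComponent m f * g) ∈ homogeneousSubmodule σ R (m + d) :=
      (homogeneousComponent_isHomogeneous m f).mul hg
    rw [homogeneousComponent_of_mem h2]
    by_cases hm : m = j
    · subst hm; simp
    · rw [if_neg (by omega), if_neg hm]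
  rw [Finset.sum_congr rfl fun m _ => h1 m, Finset.sum_ite_eq']
  split_ifs with h3
  · rfl
  · rw [homogeneousComponent_eq_zero, zero_mul]
    rw [Finset.mem_range] at h3
    omega

lemma comp_mul_lt {g : MvPolynomial σ R} {d : ℕ} (hg : g.IsHomogeneous d) (f : MvPolynomial σ R)
    {j : ℕ} (hj : j < d) : homogeneousComponent j (f * g) = 0 := by
  classical
  conv_lhs => rw [← sum_homogeneousComponent f, Finset.sum_mul, map_sum]
  apply Finset.sum_eq_zero
  intro m _
  have h2 : (homogeneousComponent m f * g) ∈ homogeneousSubmodule σ R (m + d) :=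
    (homogeneousComponent_isHomogeneous m f).mul hg
  rw [homogeneousComponent_of_mem h2, if_neg (by omega)]

end general

variable {n : ℕ}

/-- homogeneous ideals -/
def HomI (I : Ideal (MvPolynomial (Fin n) ℂ)) : Prop := ∀ f ∈ I, ∀ j, homogeneousComponent j f ∈ I

lemma homI_span {s : Set (MvPolynomial (Fin n) ℂ)} (hs : ∀ f ∈ s, ∃ d, f.IsHomogeneous d) :
    HomI (Ideal.span s) := by
  intro f hf j
  refine homogeneousComponent_mem_of_mem ?_ hf j
  apply Ideal.homogeneous_span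
  intro x hx
  obtain ⟨d, hd⟩ := hs x hx
  exact ⟨d, hd⟩

/-- regular modulo an ideal -/
def Rg (g : MvPolynomial (Fin n) ℂ) (I : Ideal (MvPolynomial (Fin n) ℂ)) : Prop :=
  ∀ a, a * g ∈ I → a ∈ I

/-- Krull's intersection theorem for homogeneous ideals -/
lemma krull {I : Ideal (MvPolynomial (Fin n) ℂ)} (hI : HomI I) {l : MvPolynomial (Fin n) ℂ}
    (hl : l.IsHomogeneous 1) {u : MvPolynomial (Fin n) ℂ}
    (hu : ∀ a : ℕ, ∃ z ∈ I, ∃ c, u = z + c * l ^ a) : u ∈ I := by
  obtain ⟨z, hz, c, h1⟩ := hu (u.totalDegree + 1)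
  rw [← sum_homogeneousComponent u]
  apply Ideal.sum_mem
  intro j hj
  rw [Finset.mem_range] at hj
  rw [h1, map_add, comp_mul_lt (by simpa using hl.pow (u.totalDegree + 1)) c hj, add_zero]
  exact hI z hz j

/-- the forms of degree `j` in `I` -/
def Ij (I : Ideal (MvPolynomial (Fin n) ℂ)) (j : ℕ) :
    Submodule ℂ (homogeneousSubmodule (Fin n) ℂ j) :=
  (I.restrictScalars ℂ).comap (homogeneousSubmodule (Fin n) ℂ j).subtype

lemma mem_Ij {I : Ideal (MvPolynomial (Fin n) ℂ)} {j : ℕ}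
    (x : homogeneousSubmodule (Fin n) ℂ j) : x ∈ Ij I j ↔ (x : MvPolynomial (Fin n) ℂ) ∈ I :=
  Iff.rfl

instance (j : ℕ) : Module.Finite ℂ (homogeneousSubmodule (Fin n) ℂ j) :=
  Module.Finite.iff_fg.mpr (homogeneousSubmodule_fg (σ := Fin n) (R := ℂ) j)

/-- the forms of degree `j` modulo `I` -/
def Hq (I : Ideal (MvPolynomial (Fin n) ℂ)) (j : ℕ) : Type :=
  homogeneousSubmodule (Fin n) ℂ j ⧸ Ij I j

instance (I : Ideal (MvPolynomial (Fin n) ℂ)) (j : ℕ) : AddCommGroup (Hq I j) :=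
  inferInstanceAs (AddCommGroup (homogeneousSubmodule (Fin n) ℂ j ⧸ Ij I j))

instance (I : Ideal (MvPolynomial (Fin n) ℂ)) (j : ℕ) : Module ℂ (Hq I j) :=
  inferInstanceAs (Module ℂ (homogeneousSubmodule (Fin n) ℂ j ⧸ Ij I j))

/-- the projection -/
def pr (I : Ideal (MvPolynomial (Fin n) ℂ)) (j : ℕ) :
    homogeneousSubmodule (Fin n) ℂ j →ₗ[ℂ] Hq I j := (Ij I j).mkQ

lemma pr_surjective (I : Ideal (MvPolynomial (Fin n) ℂ)) (j : ℕ) :
    Function.Surjective (pr I j) := Submodule.mkQ_surjective _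

instance (I : Ideal (MvPolynomial (Fin n) ℂ)) (j : ℕ) : Module.Finite ℂ (Hq I j) :=
  Module.Finite.of_surjective (pr I j) (pr_surjective I j)

lemma pr_eq_zero {I : Ideal (MvPolynomial (Fin n) ℂ)} {j : ℕ}
    (x : homogeneousSubmodule (Fin n) ℂ j) :
    pr I j x = 0 ↔ (x : MvPolynomial (Fin n) ℂ) ∈ I :=
  Submodule.Quotient.mk_eq_zero _

lemma pr_eq {I : Ideal (MvPolynomial (Fin n) ℂ)} {j : ℕ}
    (x y : homogeneousSubmodule (Fin n) ℂ j) :
    pr I j x = pr I j y ↔ (x : MvPolynomial (Fin n) ℂ) - y ∈ I := by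
  rw [← sub_eq_zero, ← map_sub, pr_eq_zero]
  rfl

/-- the Hilbert function of the quotient by `I` -/
def hf (I : Ideal (MvPolynomial (Fin n) ℂ)) (j : ℕ) : ℕ := Module.finrank ℂ (Hq I j)

/-- multiplication by a form -/
def mulj (g : MvPolynomial (Fin n) ℂ) {d : ℕ} (hg : g.IsHomogeneous d) (j : ℕ) :
    homogeneousSubmodule (Fin n) ℂ j →ₗ[ℂ] homogeneousSubmodule (Fin n) ℂ (j + d) where
  toFun x := ⟨(x : MvPolynomial (Fin n) ℂ) * g, IsHomogeneous.mul x.2 hg⟩
  map_add' x y := by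
    apply Subtype.ext
    simp [add_mul]
  map_smul' c x := by
    apply Subtype.ext
    simp

lemma mulj_le {I : Ideal (MvPolynomial (Fin n) ℂ)} (g : MvPolynomial (Fin n) ℂ) {d : ℕ}
    (hg : g.IsHomogeneous d) (j : ℕ) : Ij I j ≤ (Ij I (j + d)).comap (mulj g hg j) := by
  intro x hx
  rw [mem_Ij] at hx
  rw [Submodule.mem_comap, mem_Ij]
  exact I.mul_mem_right g hx

/-- multiplication by a form on the graded pieces of the quotient -/
def muq (I : Ideal (MvPolynomial (Fin n) ℂ)) (g : MvPolynomial (Fin n) ℂ) {d : ℕ}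
    (hg : g.IsHomogeneous d) (j : ℕ) : Hq I j →ₗ[ℂ] Hq I (j + d) :=
  (Ij I j).mapQ (Ij I (j + d)) (mulj g hg j) (mulj_le g hg j)

lemma muq_pr (I : Ideal (MvPolynomial (Fin n) ℂ)) (g : MvPolynomial (Fin n) ℂ) {d : ℕ}
    (hg : g.IsHomogeneous d) (j : ℕ) (x : homogeneousSubmodule (Fin n) ℂ j) :
    muq I g hg j (pr I j x) = pr I (j + d) (mulj g hg j x) := rfl

lemma muq_injective_iff {I : Ideal (MvPolynomial (Fin n) ℂ)} {g : MvPolynomial (Fin n) ℂ} {d : ℕ}
    (hg : g.IsHomogeneous d) (j : ℕ) :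
    Function.Injective (muq I g hg j) ↔
      ∀ a : MvPolynomial (Fin n) ℂ, a.IsHomogeneous j → a * g ∈ I → a ∈ I := by
  rw [← LinearMap.ker_eq_bot, LinearMap.ker_eq_bot']
  constructor
  · intro h a ha hag
    have h1 := h (pr I j ⟨a, ha⟩) (by
      rw [muq_pr, pr_eq_zero]
      exact hag)
    rw [pr_eq_zero] at h1
    exact h1
  · intro h x
    obtain ⟨⟨a, ha⟩, rfl⟩ := pr_surjective I j x
    intro h1
    rw [muq_pr, pr_eq_zero] at h1
    rw [pr_eq_zero]
    exact h a ha h1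

lemma exists_form {I : Ideal (MvPolynomial (Fin n) ℂ)} (hI : HomI I)
    {g : MvPolynomial (Fin n) ℂ} {d : ℕ} (hg : g.IsHomogeneous d) (j : ℕ)
    {a : MvPolynomial (Fin n) ℂ} (ha : a.IsHomogeneous (j + d))
    (h : a ∈ I ⊔ Ideal.span {g}) :
    ∃ c : MvPolynomial (Fin n) ℂ, c.IsHomogeneous j ∧ c * g - a ∈ I := by
  obtain ⟨z, hz, w, hw, h1⟩ := Submodule.mem_sup.mp h
  obtain ⟨c, rfl⟩ := Ideal.mem_span_singleton'.mp hw
  refine ⟨homogeneousComponent j c, homogeneousComponent_isHomogeneous j c, ?_⟩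
  have h2 : homogeneousComponent (j + d) a = a := by
    rw [homogeneousComponent_of_mem ha, if_pos rfl]
  have h3 : homogeneousComponent j c * g - a = - homogeneousComponent (j + d) z := by
    rw [← comp_mul hg]
    conv_lhs => rw [← h2, ← h1, map_add]
    ring
  rw [h3]
  exact I.neg_mem (hI z hz _)

lemma muq_surjective {I : Ideal (MvPolynomial (Fin n) ℂ)} (hI : HomI I)
    {g : MvPolynomial (Fin n) ℂ} {d : ℕ}
    (hg : g.IsHomogeneous d) (j : ℕ)
    (h : ∀ a : MvPolynomial (Fin n) ℂ, a.IsHomogeneous (j + d) → a ∈ I ⊔ Ideal.span {g}) :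
    Function.Surjective (muq I g hg j) := by
  intro x
  obtain ⟨⟨a, ha⟩, rfl⟩ := pr_surjective I (j + d) x
  obtain ⟨c, hc, h1⟩ := exists_form hI hg j ha (h a ha)
  refine ⟨pr I j ⟨c, hc⟩, ?_⟩
  rw [muq_pr, pr_eq]
  exact h1

/-- the projection to a smaller quotient -/
def fac {I J : Ideal (MvPolynomial (Fin n) ℂ)} (h : I ≤ J) (j : ℕ) : Hq I j →ₗ[ℂ] Hq J j :=
  (Ij I j).mapQ (Ij J j) LinearMap.id (fun x hx => by
    rw [Submodule.mem_comap, mem_Ij]
    rw [mem_Ij] at hx
    exact h hx)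

lemma fac_pr {I J : Ideal (MvPolynomial (Fin n) ℂ)} (h : I ≤ J) (j : ℕ)
    (x : homogeneousSubmodule (Fin n) ℂ j) : fac h j (pr I j x) = pr J j x := rfl

/-- regular forms: the Hilbert function of `I + (g)` -/
lemma hf_add {I : Ideal (MvPolynomial (Fin n) ℂ)} (hI : HomI I)
    {g : MvPolynomial (Fin n) ℂ} {d : ℕ} (hg : g.IsHomogeneous d) (hr : Rg g I) (j : ℕ) :
    hf I (j + d) = hf I j + hf (I ⊔ Ideal.span {g}) (j + d) := by
  have hle : I ≤ I ⊔ Ideal.span {g} := le_sup_left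
  have hsurj : Function.Surjective (fac hle (j + d)) := by
    intro y
    obtain ⟨x, rfl⟩ := pr_surjective _ _ y
    exact ⟨pr I (j + d) x, rfl⟩
  have h1 := LinearMap.finrank_range_add_finrank_ker (fac hle (j + d))
  rw [LinearMap.range_eq_top.mpr hsurj, finrank_top] at h1
  have hinj : Function.Injective (muq I g hg j) :=
    (muq_injective_iff hg j).mpr fun a _ h => hr a h
  have h2 : LinearMap.ker (fac hle (j + d)) = LinearMap.range (muq I g hg j) := by
    ext x
    obtain ⟨⟨a, ha⟩, rfl⟩ := pr_surjective _ _ x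
    rw [LinearMap.mem_ker, LinearMap.mem_range, fac_pr, pr_eq_zero]
    constructor
    · intro h4
      obtain ⟨c, hc, h1⟩ := exists_form hI hg j ha h4
      refine ⟨pr I j ⟨c, hc⟩, ?_⟩
      rw [muq_pr, pr_eq]
      exact h1
    · rintro ⟨y, hy⟩
      obtain ⟨⟨c, hc⟩, rfl⟩ := pr_surjective _ _ y
      rw [muq_pr, pr_eq] at hy
      have h5 : c * g - a ∈ I := hy
      have h6 : a = c * g - (c * g - a) := by ring
      show a ∈ _
      rw [h6]
      exact Ideal.sub_mem _ (Ideal.mem_sup_right (Ideal.mem_span_singleton'.mpr ⟨c, rfl⟩))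
        (Ideal.mem_sup_left h5)
  rw [h2, LinearMap.finrank_range_of_inj hinj] at h1
  rw [hf, hf, hf]
  omega

lemma hf_lt {I : Ideal (MvPolynomial (Fin n) ℂ)} (hI : HomI I)
    {g : MvPolynomial (Fin n) ℂ} {d : ℕ} (hg : g.IsHomogeneous d) {j : ℕ} (hj : j < d) :
    hf (I ⊔ Ideal.span {g}) j = hf I j := by
  have h1 : Ij (I ⊔ Ideal.span {g}) j = Ij I j := by
    ext ⟨a, ha⟩
    rw [mem_Ij, mem_Ij]
    constructor
    · intro h4
      obtain ⟨z, hz, w, hw, h1⟩ := Submodule.mem_sup.mp h4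
      obtain ⟨c, rfl⟩ := Ideal.mem_span_singleton'.mp hw
      have h2 : homogeneousComponent j a = a := by
        rw [homogeneousComponent_of_mem ha, if_pos rfl]
      have h3 : homogeneousComponent j a = homogeneousComponent j z := by
        change z + c * g = a at h1
        rw [← h1, map_add, comp_mul_lt hg c hj, add_zero]
      show a ∈ I
      rw [← h2, h3]
      exact hI z hz _
    · intro h
      exact Ideal.mem_sup_left h
  have e : (homogeneousSubmodule (Fin n) ℂ j ⧸ Ij (I ⊔ Ideal.span {g}) j) ≃ₗ[ℂ]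
      (homogeneousSubmodule (Fin n) ℂ j ⧸ Ij I j) := Submodule.quotEquivOfEq _ _ h1
  exact e.finrank_eq

/-- the component of degree `j` as a linear map -/
def cj (j : ℕ) : MvPolynomial (Fin n) ℂ →ₗ[ℂ] homogeneousSubmodule (Fin n) ℂ j :=
  (homogeneousComponent j).codRestrict (homogeneousSubmodule (Fin n) ℂ j)
    (fun c => homogeneousComponent_isHomogeneous j c)

lemma cj_coe (j : ℕ) (a : MvPolynomial (Fin n) ℂ) :
    ((cj j a : homogeneousSubmodule (Fin n) ℂ j) : MvPolynomial (Fin n) ℂ) =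
      homogeneousComponent j a := rfl

/-- all components in degrees less than `N`, modulo `I` -/
def cN (I : Ideal (MvPolynomial (Fin n) ℂ)) (N : ℕ) : MvPolynomial (Fin n) ℂ →ₗ[ℂ]
    ((j : Fin N) → Hq I (j : ℕ)) :=
  LinearMap.pi fun j => (pr I (j : ℕ)).comp (cj (j : ℕ))

lemma cN_apply (I : Ideal (MvPolynomial (Fin n) ℂ)) (N : ℕ) (a : MvPolynomial (Fin n) ℂ)
    (j : Fin N) : cN I N a j = pr I (j : ℕ) (cj (j : ℕ) a) := rfl

lemma ker_cN {I : Ideal (MvPolynomial (Fin n) ℂ)} (hI : HomI I) {N : ℕ}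
    (hN : ∀ j, N ≤ j → ∀ a : MvPolynomial (Fin n) ℂ, a.IsHomogeneous j → a ∈ I) :
    I.restrictScalars ℂ = LinearMap.ker (cN I N) := by
  ext a
  rw [LinearMap.mem_ker, Submodule.restrictScalars_mem]
  constructor
  · intro h
    funext j
    rw [cN_apply, Pi.zero_apply, pr_eq_zero, cj_coe]
    exact hI a h j
  · intro h
    rw [← sum_homogeneousComponent a]
    apply Ideal.sum_mem
    intro j _
    rcases Nat.lt_or_ge j N with h1 | h1
    · have h2 := congrFun h ⟨j, h1⟩
      rw [cN_apply, Pi.zero_apply, pr_eq_zero, cj_coe] at h2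
      exact h2
    · exact hN j h1 _ (homogeneousComponent_isHomogeneous _ _)

lemma cN_surjective (I : Ideal (MvPolynomial (Fin n) ℂ)) (N : ℕ) :
    Function.Surjective (cN I N) := by
  intro y
  choose z hz using fun j : Fin N => pr_surjective _ _ (y j)
  refine ⟨∑ j, (z j : MvPolynomial (Fin n) ℂ), ?_⟩
  funext j
  rw [cN_apply, ← hz j]
  congr 1
  apply Subtype.ext
  rw [cj_coe, map_sum, Finset.sum_eq_single j]
  · rw [homogeneousComponent_of_mem (z j).2, if_pos rfl]
  · intro i _ hij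
    rw [homogeneousComponent_of_mem (z i).2, if_neg]
    intro h
    exact hij (Fin.ext h.symm)
  · simp

lemma finrank_quot {I : Ideal (MvPolynomial (Fin n) ℂ)} (hI : HomI I) {N : ℕ}
    (hN : ∀ j, N ≤ j → ∀ a : MvPolynomial (Fin n) ℂ, a.IsHomogeneous j → a ∈ I) :
    Module.finrank ℂ (MvPolynomial (Fin n) ℂ ⧸ I) = ∑ j ∈ Finset.range N, hf I j := by
  have h1 : Module.finrank ℂ (MvPolynomial (Fin n) ℂ ⧸ LinearMap.ker (cN I N)) =
      Module.finrank ℂ ((j : Fin N) → Hq I (j : ℕ)) :=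
    LinearEquiv.finrank_eq (LinearMap.quotKerEquivOfSurjective (cN I N) (cN_surjective I N))
  rw [Module.finrank_pi_fintype, ← ker_cN hI hN] at h1
  rw [Finset.sum_range, ← (Submodule.Quotient.restrictScalarsEquiv ℂ I).finrank_eq, h1]
  rfl

end

end Pool.Agent.helper62.BZ
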