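import Pool.Agent.helper62.BZ.Basic

set_option autoImplicit false

/-!
# The Nullstellensatz for homogeneous ideals; hyperplanes in general position
-/

namespace Pool.Agent.helper62.BZ

open MvPolynomial

noncomputable section

variable {n : ℕ}

/-- an ideal whose only zero is `0` contains all forms of large degree -/
lemma forms_mem {I : Ideal (MvPolynomial (Fin n) ℂ)}
    (h : ∀ x : Fin n → ℂ, (∀ f ∈ I, eval x f = 0) → x = 0) :
    ∃ N, ∀ j, N ≤ j → ∀ a : MvPolynomial (Fin n) ℂ, a.IsHomogeneous j → a ∈ I := by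
  have h1 : idealOfVars (Fin n) ℂ ≤ I.radical := by
    rw [← vanishingIdeal_zeroLocus_eq_radical (K := ℂ), Ideal.span_le]
    rintro _ ⟨i, rfl⟩
    rw [SetLike.mem_coe, mem_vanishingIdeal_iff]
    intro x hx
    have h2 : x = 0 := h x fun f hf => by
      have := hx f hf
      rwa [← coe_aeval_eq_eval]
    rw [h2]
    simp
  obtain ⟨N, hN⟩ := Ideal.exists_pow_le_of_le_radical_of_fg h1 (idealOfVars_fg (Fin n) ℂ)
  refine ⟨N, fun j hj a ha => hN ?_⟩
  rw [mem_pow_idealOfVars_iff]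
  intro x hx
  have h2 : x.degree = j := by
    by_contra hne
    exact (mem_support_iff.mp hx) (ha.coeff_eq_zero hne)
  omega

lemma eval_homogeneous_smul {f : MvPolynomial (Fin n) ℂ} {d : ℕ} (hf : f.IsHomogeneous d)
    (t : ℂ) (x : Fin n → ℂ) : eval (t • x) f = t ^ d * eval x f := by
  rw [eval_eq', eval_eq', Finset.mul_sum]
  apply Finset.sum_congr rfl
  intro m hm
  have h1 : m.degree = d := by
    by_contra hne
    exact (mem_support_iff.mp hm) (hf.coeff_eq_zero hne)
  have h2 : ∏ i, (t • x) i ^ m i = t ^ d * ∏ i, x i ^ m i := by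
    simp only [Pi.smul_apply, smul_eq_mul, mul_pow, Finset.prod_mul_distrib]
    congr 1
    rw [Finset.prod_pow_eq_pow_sum, ← h1, Finsupp.degree_eq_sum]
  rw [h2]
  ring

/-- the points with `g = 1` in the zero set of `J` are finite in number -/
lemma finite_points {J : Ideal (MvPolynomial (Fin n) ℂ)} (hJ : HomI J)
    {g : MvPolynomial (Fin n) ℂ} {d : ℕ} (hd : 0 < d) (hg : g.IsHomogeneous d)
    (h : ∀ x : Fin n → ℂ, (∀ f ∈ J, eval x f = 0) → eval x g = 0 → x = 0) :
    {x : Fin n → ℂ | (∀ f ∈ J, eval x f = 0) ∧ eval x g = 1}.Finite := by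
  obtain ⟨N0, hN0⟩ := forms_mem (I := J ⊔ Ideal.span {g}) (by
    intro x hx
    exact h x (fun f hf => hx f (Ideal.mem_sup_left hf))
      (hx g (Ideal.mem_sup_right (Ideal.subset_span rfl))))
  obtain ⟨N, hN1, hN2⟩ : ∃ N, N0 ≤ N ∧ d ≤ N := ⟨max N0 d, le_max_left _ _, le_max_right _ _⟩
  set J' : Ideal (MvPolynomial (Fin n) ℂ) := J ⊔ Ideal.span {g - 1} with hJ'
  -- reduction of the degree
  have key : ∀ m, ∀ f : MvPolynomial (Fin n) ℂ, f.IsHomogeneous m →
      ∃ j < N, ∃ f' : MvPolynomial (Fin n) ℂ, f'.IsHomogeneous j ∧ f - f' ∈ J' := by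
    intro m
    induction m using Nat.strong_induction_on with
    | _ m ih =>
      intro f hf
      rcases Nat.lt_or_ge m N with hm | hm
      · exact ⟨m, hm, f, hf, by simp⟩
      · obtain ⟨e, rfl⟩ : ∃ e, m = e + d := ⟨m - d, by omega⟩
        obtain ⟨c, hc, h1⟩ := exists_form hJ hg e hf (hN0 _ (by omega) f hf)
        obtain ⟨j, hj, f', hf', h2⟩ := ih e (by omega) c hc
        refine ⟨j, hj, f', hf', ?_⟩
        have h3 : f - f' = -(c * g - f) + c * (g - 1) + (c - f') := by ring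
        rw [h3]
        exact J'.add_mem (J'.add_mem (J'.neg_mem (Ideal.mem_sup_left h1))
          (J'.mul_mem_left _ (Ideal.mem_sup_right (Ideal.subset_span rfl)))) h2
  let φ : ((j : Fin N) → homogeneousSubmodule (Fin n) ℂ (j : ℕ)) →ₗ[ℂ]
      (MvPolynomial (Fin n) ℂ ⧸ J') :=
    ∑ j : Fin N, (Ideal.Quotient.mkₐ ℂ J').toLinearMap.comp
      ((homogeneousSubmodule (Fin n) ℂ (j : ℕ)).subtype.comp (LinearMap.proj j))
  have hφ : ∀ y, φ y = ∑ j : Fin N, Ideal.Quotient.mk J' (y j : MvPolynomial (Fin n) ℂ) := by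
    intro y
    rw [LinearMap.sum_apply]
    rfl
  have hforms : ∀ m, ∀ f : MvPolynomial (Fin n) ℂ, f.IsHomogeneous m →
      Ideal.Quotient.mk J' f ∈ LinearMap.range φ := by
    intro m f hf
    obtain ⟨j, hj, f', hf', h1⟩ := key m f hf
    classical
    refine ⟨fun i => if hi : (i : ℕ) = j then ⟨f', hi ▸ hf'⟩ else 0, ?_⟩
    rw [hφ, Finset.sum_eq_single ⟨j, hj⟩]
    · rw [dif_pos rfl]
      exact ((Ideal.Quotient.mk_eq_mk_iff_sub_mem _ _).mpr h1).symm
    · intro i _ hij
      rw [dif_neg]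
      · simp
      · intro h
        exact hij (Fin.ext h)
    · simp
  have hsurj : Function.Surjective φ := by
    intro y
    obtain ⟨f, rfl⟩ := Ideal.Quotient.mk_surjective y
    rw [← LinearMap.mem_range, ← sum_homogeneousComponent f, map_sum]
    exact Submodule.sum_mem _ fun j _ => hforms j _ (homogeneousComponent_isHomogeneous j f)
  have hfin : Module.Finite ℂ (MvPolynomial (Fin n) ℂ ⧸ J') := Module.Finite.of_surjective φ hsurj
  have hpol : ∀ i : Fin n, ∃ p : Polynomial ℂ, p ≠ 0 ∧ Polynomial.aeval (X i) p ∈ J' := by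
    intro i
    obtain ⟨p, hp1, hp2⟩ := Algebra.IsIntegral.isIntegral (R := ℂ)
      (Ideal.Quotient.mk J' (X i : MvPolynomial (Fin n) ℂ))
    refine ⟨p, hp1.ne_zero, ?_⟩
    rw [← Ideal.Quotient.eq_zero_iff_mem]
    have h3 : Ideal.Quotient.mk J' (Polynomial.aeval (X i) p) =
        Polynomial.aeval (Ideal.Quotient.mk J' (X i)) p :=
      (Polynomial.aeval_algHom_apply (Ideal.Quotient.mkₐ ℂ J') (X i) p).symm
    rw [h3]
    exact hp2
  choose p hp0 hp using hpol
  apply Set.Finite.subset (Set.Finite.pi' (fun i => (p i).rootSet_finite ℂ))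
  rintro x ⟨hx1, hx2⟩
  have hx3 : ∀ f ∈ J', eval x f = 0 := by
    intro f hf
    obtain ⟨z, hz, w, hw, rfl⟩ := Submodule.mem_sup.mp hf
    obtain ⟨c, rfl⟩ := Ideal.mem_span_singleton'.mp hw
    rw [map_add, map_mul, map_sub, hx1 z hz, hx2]
    simp
  intro i
  rw [Polynomial.mem_rootSet]
  refine ⟨hp0 i, ?_⟩
  have h4 := hx3 _ (hp i)
  have h5 : eval x (Polynomial.aeval (X i : MvPolynomial (Fin n) ℂ) (p i)) =
      Polynomial.aeval (x i) (p i) := by
    have := (Polynomial.aeval_algHom_apply (aeval x : MvPolynomial (Fin n) ℂ →ₐ[ℂ] ℂ)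
      (X i) (p i))
    rw [aeval_X] at this
    rw [this]
    rfl
  rw [← h5]
  exact h4

/-- the linear form `X 0 + ∑ a i X (i + 1)` -/
def ell (a : Fin n → ℂ) : MvPolynomial (Fin (n + 1)) ℂ := X 0 + ∑ i, C (a i) * X i.succ

/-- elimination of `X 0` by `ell a = 0` -/
def pia (a : Fin n → ℂ) : MvPolynomial (Fin (n + 1)) ℂ →ₐ[ℂ] MvPolynomial (Fin n) ℂ :=
  aeval (Fin.cons (-∑ i, C (a i) * X i) X : Fin (n + 1) → MvPolynomial (Fin n) ℂ)

lemma ell_hom (a : Fin n → ℂ) : (ell a).IsHomogeneous 1 := by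
  apply IsHomogeneous.add (isHomogeneous_X _ _)
  apply IsHomogeneous.sum
  intro i _
  exact isHomogeneous_C_mul_X _ _

lemma pia_zero (a : Fin n → ℂ) : pia a (X 0) = -∑ i, C (a i) * X i := by
  rw [pia, aeval_X, Fin.cons_zero]

lemma pia_succ (a : Fin n → ℂ) (i : Fin n) : pia a (X i.succ) = X i := by
  rw [pia, aeval_X, Fin.cons_succ]

lemma pia_hom (a : Fin n → ℂ) {f : MvPolynomial (Fin (n + 1)) ℂ} {d : ℕ}
    (hf : f.IsHomogeneous d) : (pia a f).IsHomogeneous d := by
  have h1 := hf.aeval (Fin.cons (-∑ i, C (a i) * X i) X : Fin (n + 1) → MvPolynomial (Fin n) ℂ)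
    (n := 1) (by
      intro i
      refine Fin.cases ?_ (fun j => ?_) i
      · rw [Fin.cons_zero]
        apply IsHomogeneous.neg
        apply IsHomogeneous.sum
        intro i _
        exact isHomogeneous_C_mul_X _ _
      · rw [Fin.cons_succ]
        exact isHomogeneous_X _ _)
  rw [one_mul] at h1
  exact h1

lemma pia_rename (a : Fin n → ℂ) (f : MvPolynomial (Fin n) ℂ) :
    pia a (rename Fin.succ f) = f := by
  have h1 : (pia a).comp (rename Fin.succ) = AlgHom.id ℂ _ := by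
    apply algHom_ext
    intro i
    rw [AlgHom.comp_apply, rename_X, pia_succ]
    rfl
  exact DFunLike.congr_fun h1 f

lemma pia_surjective (a : Fin n → ℂ) : Function.Surjective (pia a) :=
  fun f => ⟨rename Fin.succ f, pia_rename a f⟩

lemma pia_ell (a : Fin n → ℂ) : pia a (ell a) = 0 := by
  rw [ell, map_add, map_sum, pia_zero]
  simp only [map_mul, pia_succ]
  have h1 : ∀ i, pia a (C (a i)) = C (a i) := fun i => (pia a).commutes (a i)
  simp only [h1]
  ring

lemma ell_ne_zero (a : Fin n → ℂ) : ell a ≠ 0 := by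
  intro h
  have h1 : eval (Fin.cons 1 0 : Fin (n + 1) → ℂ) (ell a) = 1 := by
    rw [ell]
    simp
  rw [h, map_zero] at h1
  exact zero_ne_one h1

lemma sub_mem_span_ell (a : Fin n → ℂ) (f : MvPolynomial (Fin (n + 1)) ℂ) :
    f - rename Fin.succ (pia a f) ∈ Ideal.span {ell a} := by
  rw [← Ideal.Quotient.mk_eq_mk_iff_sub_mem]
  have h1 : (Ideal.Quotient.mkₐ ℂ (Ideal.span {ell a})) =
      (Ideal.Quotient.mkₐ ℂ (Ideal.span {ell a})).comp ((rename Fin.succ).comp (pia a)) := by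
    apply algHom_ext
    intro i
    refine Fin.cases ?_ (fun j => ?_) i
    · rw [AlgHom.comp_apply, AlgHom.comp_apply, pia_zero]
      show Ideal.Quotient.mk _ _ = Ideal.Quotient.mk _ _
      rw [Ideal.Quotient.mk_eq_mk_iff_sub_mem]
      have h2 : (X 0 : MvPolynomial (Fin (n + 1)) ℂ) -
          rename Fin.succ (-∑ i, C (a i) * X i) = ell a := by
        rw [map_neg, map_sum, ell, sub_neg_eq_add]
        simp only [map_mul, rename_C, rename_X]
      rw [h2]
      exact Ideal.subset_span rfl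
    · rw [AlgHom.comp_apply, AlgHom.comp_apply, pia_succ, rename_X]
  exact DFunLike.congr_fun h1 f

lemma mem_span_ell_iff (a : Fin n → ℂ) (f : MvPolynomial (Fin (n + 1)) ℂ) :
    pia a f = 0 ↔ f ∈ Ideal.span {ell a} := by
  constructor
  · intro h
    have h1 := sub_mem_span_ell a f
    rw [h, map_zero, sub_zero] at h1
    exact h1
  · intro h
    obtain ⟨c, rfl⟩ := Ideal.mem_span_singleton'.mp h
    rw [map_mul, pia_ell, mul_zero]

/-- the point of the hyperplane -/
def pt (a : Fin n → ℂ) (y : Fin n → ℂ) : Fin (n + 1) → ℂ := Fin.cons (-∑ i, a i * y i) y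

lemma eval_pia (a : Fin n → ℂ) (y : Fin n → ℂ) (f : MvPolynomial (Fin (n + 1)) ℂ) :
    eval y (pia a f) = eval (pt a y) f := by
  have h1 : (aeval y : MvPolynomial (Fin n) ℂ →ₐ[ℂ] ℂ).comp (pia a) = aeval (pt a y) := by
    apply algHom_ext
    intro i
    refine Fin.cases ?_ (fun j => ?_) i
    · rw [AlgHom.comp_apply, pia_zero, aeval_X, pt, Fin.cons_zero, map_neg, map_sum]
      simp
    · rw [AlgHom.comp_apply, pia_succ, aeval_X, aeval_X, pt, Fin.cons_succ]
  have h2 := DFunLike.congr_fun h1 f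
  exact h2

lemma eval_ell_pt (a : Fin n → ℂ) (y : Fin n → ℂ) : eval (pt a y) (ell a) = 0 := by
  rw [← eval_pia, pia_ell, map_zero]

/-- a hyperplane which meets the zero set only in `0` -/
theorem exists_ell {J : Ideal (MvPolynomial (Fin (n + 1)) ℂ)} (hJ : HomI J)
    {g : MvPolynomial (Fin (n + 1)) ℂ} {d : ℕ} (hd : 0 < d) (hg : g.IsHomogeneous d)
    (h : ∀ x : Fin (n + 1) → ℂ, (∀ f ∈ J, eval x f = 0) → eval x g = 0 → x = 0) :
    ∃ a : Fin n → ℂ, ∀ y : Fin n → ℂ, (∀ f ∈ J, eval y (pia a f) = 0) → y = 0 := by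
  classical
  have hfin := finite_points hJ hd hg h
  obtain ⟨F, hF⟩ : ∃ F : Finset (Fin (n + 1) → ℂ),
      ∀ x, x ∈ F ↔ (∀ f ∈ J, eval x f = 0) ∧ eval x g = 1 := by
    refine ⟨hfin.toFinset, fun x => ?_⟩
    rw [Set.Finite.mem_toFinset]
    rfl
  set L : (Fin (n + 1) → ℂ) → MvPolynomial (Fin n) ℂ := fun x =>
    C (x 0) + ∑ i, C (x i.succ) * X i with hL
  have hL0 : ∀ x ∈ F, L x ≠ 0 := by
    intro x hx h0
    have h1 : x = 0 := by
      funext i
      refine Fin.cases ?_ (fun j => ?_) i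
      · have h2 := congrArg (eval (0 : Fin n → ℂ)) h0
        simpa [hL] using h2
      · have h2 := congrArg (eval (0 : Fin n → ℂ)) h0
        have h3 := congrArg (eval (Pi.single j 1 : Fin n → ℂ)) h0
        have h4 : x 0 = 0 := by simpa [hL] using h2
        simpa [hL, h4, Pi.single_apply] using h3
    have h2 := ((hF x).mp hx).2
    rw [h1] at h2
    have h3 := eval_homogeneous_smul hg 0 (0 : Fin (n + 1) → ℂ)
    rw [smul_zero, h2, zero_pow (by omega)] at h3
    simp at h3
  have hprod : (∏ x ∈ F, L x) ≠ 0 := Finset.prod_ne_zero_iff.mpr hL0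
  obtain ⟨a, ha⟩ : ∃ a : Fin n → ℂ, eval a (∏ x ∈ F, L x) ≠ 0 := by
    by_contra hcon
    push Not at hcon
    exact hprod (MvPolynomial.funext fun x => by rw [hcon x, map_zero])
  rw [map_prod, Finset.prod_ne_zero_iff] at ha
  refine ⟨a, fun y hy => ?_⟩
  by_contra hy0
  have h1 : ∀ f ∈ J, eval (pt a y) f = 0 := fun f hf => by
    rw [← eval_pia]
    exact hy f hf
  have h2 : pt a y ≠ 0 := by
    intro h0
    apply hy0
    funext i
    have := congrFun h0 i.succ
    rwa [pt, Fin.cons_succ] at this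
  have h3 : eval (pt a y) g ≠ 0 := fun h4 => h2 (h _ h1 h4)
  obtain ⟨t, ht⟩ := IsAlgClosed.exists_pow_nat_eq (eval (pt a y) g)⁻¹ hd
  have h5 : t • pt a y ∈ F := by
    rw [hF]
    constructor
    · intro f hf
      rw [← sum_homogeneousComponent f, map_sum]
      apply Finset.sum_eq_zero
      intro j _
      rw [eval_homogeneous_smul (homogeneousComponent_isHomogeneous j f), h1 _ (hJ f hf j),
        mul_zero]
    · rw [eval_homogeneous_smul hg, ht, inv_mul_cancel₀ h3]
  have h6 := ha _ h5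
  apply h6
  have h7 : eval a (L (t • pt a y)) = t * eval (pt a y) (ell a) := by
    rw [hL, ell]
    simp only [map_add, map_sum, map_mul, eval_C, eval_X, Pi.smul_apply, smul_eq_mul]
    rw [mul_add, Finset.mul_sum]
    congr 1
    apply Finset.sum_congr rfl
    intro i _
    ring
  rw [h7, eval_ell_pt, mul_zero]

end

end Pool.Agent.helper62.BZ
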