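import Pool.Agent.helper62.BZ.Kos

set_option autoImplicit false

/-!
# The basis of the quotient by a perturbed complete intersection
-/

namespace Pool.Agent.helper62.BZ

open MvPolynomial

noncomputable section

variable {n : ℕ}

section base

variable (I : Ideal (MvPolynomial (Fin n) ℂ)) (N : ℕ)

/-- the index type of the basis -/
def Ix : Type := Σ k : Fin N, Fin (hf I (k : ℕ))

instance : Fintype (Ix I N) := inferInstanceAs (Fintype (Σ k : Fin N, Fin (hf I (k : ℕ))))

/-- a basis of the graded piece -/
def bs (k : ℕ) : Module.Basis (Fin (hf I k)) ℂ (Hq I k) := Module.finBasis ℂ (Hq I k)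

/-- the lifts of the basis elements -/
def el (j : Ix I N) : homogeneousSubmodule (Fin n) ℂ (j.1 : ℕ) :=
  (pr_surjective I (j.1 : ℕ) (bs I (j.1 : ℕ) j.2)).choose

lemma pr_el (j : Ix I N) : pr I (j.1 : ℕ) (el I N j) = bs I (j.1 : ℕ) j.2 :=
  (pr_surjective I (j.1 : ℕ) (bs I (j.1 : ℕ) j.2)).choose_spec

lemma cj_el (j : Ix I N) (k : ℕ) (h : k ≠ (j.1 : ℕ)) :
    cj k (el I N j : MvPolynomial (Fin n) ℂ) = 0 := by
  apply Subtype.ext
  rw [cj_coe, homogeneousComponent_of_mem (el I N j).2, if_neg h]
  rfl

lemma cj_el_self (j : Ix I N) :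
    cj (j.1 : ℕ) (el I N j : MvPolynomial (Fin n) ℂ) = el I N j := by
  apply Subtype.ext
  rw [cj_coe, homogeneousComponent_of_mem (el I N j).2, if_pos rfl]

lemma card_Ix : Fintype.card (Ix I N) = ∑ j ∈ Finset.range N, hf I j := by
  have h1 : Fintype.card (Σ k : Fin N, Fin (hf I (k : ℕ))) = ∑ j ∈ Finset.range N, hf I j := by
    rw [Fintype.card_sigma, Finset.sum_range]
    simp
  exact h1

/-- the components of a combination of the basis elements -/
lemma cN_comb (c : Ix I N → ℂ) (k : Fin N) :
    cN I N (∑ j, c j • (el I N j : MvPolynomial (Fin n) ℂ)) k =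
      ∑ l, c ⟨k, l⟩ • bs I (k : ℕ) l := by
  have h0 : (∑ j : Ix I N, c j • (el I N j : MvPolynomial (Fin n) ℂ)) =
      ∑ k' : Fin N, ∑ l : Fin (hf I (k' : ℕ)), c ⟨k', l⟩ •
        (el I N ⟨k', l⟩ : MvPolynomial (Fin n) ℂ) :=
    Fintype.sum_sigma (fun j : (Σ k : Fin N, Fin (hf I (k : ℕ))) =>
      c j • (el I N j : MvPolynomial (Fin n) ℂ))
  rw [h0, map_sum, Finset.sum_apply, Finset.sum_eq_single k]
  · rw [map_sum, Finset.sum_apply]
    apply Finset.sum_congr rfl
    intro l _
    rw [map_smul, Pi.smul_apply, cN_apply]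
    congr 1
    have h1 := cj_el_self I N ⟨k, l⟩
    have h2 := pr_el I N ⟨k, l⟩
    dsimp only at h1 h2
    rw [h1, h2]
  · intro k' _ hk'
    rw [map_sum, Finset.sum_apply]
    apply Finset.sum_eq_zero
    intro l _
    rw [map_smul, Pi.smul_apply, cN_apply, cj_el I N ⟨k', l⟩ (k : ℕ), map_zero, smul_zero]
    intro h
    exact hk' (Fin.ext h.symm)
  · simp

variable {I N}

/-- the coefficients -/
def lam (f : MvPolynomial (Fin n) ℂ) (j : Ix I N) : ℂ :=
  (bs I (j.1 : ℕ)).repr (pr I (j.1 : ℕ) (cj (j.1 : ℕ) f)) j.2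

lemma lam_zero {f : MvPolynomial (Fin n) ℂ} {m : ℕ} (hf : f.IsHomogeneous m) (j : Ix I N)
    (h : (j.1 : ℕ) ≠ m) : lam f j = 0 := by
  have h1 : cj (j.1 : ℕ) f = 0 := by
    apply Subtype.ext
    rw [cj_coe, homogeneousComponent_of_mem hf, if_neg h]
    rfl
  rw [lam, h1, map_zero, map_zero]
  rfl

/-- the basis elements generate modulo `I` -/
lemma E1 (hI : HomI I)
    (hN : ∀ j, N ≤ j → ∀ a : MvPolynomial (Fin n) ℂ, a.IsHomogeneous j → a ∈ I)
    (f : MvPolynomial (Fin n) ℂ) :
    f - ∑ j : Ix I N, lam f j • (el I N j : MvPolynomial (Fin n) ℂ) ∈ I := by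
  have h1 := ker_cN hI hN
  have h2 : f - ∑ j : Ix I N, lam f j • (el I N j : MvPolynomial (Fin n) ℂ) ∈
      LinearMap.ker (cN I N) := by
    rw [LinearMap.mem_ker, map_sub, sub_eq_zero]
    funext k
    rw [cN_comb, cN_apply]
    exact ((bs I (k : ℕ)).sum_repr (pr I (k : ℕ) (cj (k : ℕ) f))).symm
  rw [← h1, Submodule.restrictScalars_mem] at h2
  exact h2

/-- the basis elements are independent modulo `I` -/
lemma E2 (hI : HomI I)
    (hN : ∀ j, N ≤ j → ∀ a : MvPolynomial (Fin n) ℂ, a.IsHomogeneous j → a ∈ I)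
    (c : Ix I N → ℂ) (h : ∑ j, c j • (el I N j : MvPolynomial (Fin n) ℂ) ∈ I) : ∀ j, c j = 0 := by
  rintro ⟨k, l⟩
  have h1 : ∑ j, c j • (el I N j : MvPolynomial (Fin n) ℂ) ∈ LinearMap.ker (cN I N) := by
    rw [← ker_cN hI hN, Submodule.restrictScalars_mem]
    exact h
  rw [LinearMap.mem_ker] at h1
  have h2 := congrFun h1 k
  rw [cN_comb, Pi.zero_apply] at h2
  exact Fintype.linearIndependent_iff.mp (bs I (k : ℕ)).linearIndependent (fun l => c ⟨k, l⟩) h2 l

end base

section coord

variable {A : Type} [CommRing A] [Algebra ℂ A] {s : Type} (b : Module.Basis s ℂ A)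

/-- the coordinates of a polynomial over `A` -/
def crd (t : s) (f : MvPolynomial (Fin n) A) : MvPolynomial (Fin n) ℂ :=
  ∑ α ∈ f.support, monomial α (b.coord t (coeff α f))

lemma coeff_crd (t : s) (f : MvPolynomial (Fin n) A) (α : Fin n →₀ ℕ) :
    coeff α (crd b t f) = b.coord t (coeff α f) := by
  classical
  rw [crd, coeff_sum]
  simp only [coeff_monomial]
  rw [Finset.sum_ite_eq']
  split_ifs with h
  · rfl
  · rw [notMem_support_iff.mp h, map_zero]

lemma crd_add (t : s) (f g : MvPolynomial (Fin n) A) :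
    crd b t (f + g) = crd b t f + crd b t g := by
  ext α
  rw [coeff_add, coeff_crd, coeff_crd, coeff_crd, coeff_add, map_add]

lemma crd_zero (t : s) : crd b t (0 : MvPolynomial (Fin n) A) = 0 := by
  ext α
  rw [coeff_crd, coeff_zero, coeff_zero, map_zero]

lemma crd_sum {κ : Type} (T : Finset κ) (t : s) (f : κ → MvPolynomial (Fin n) A) :
    crd b t (∑ i ∈ T, f i) = ∑ i ∈ T, crd b t (f i) := by
  classical
  induction T using Finset.induction_on with
  | empty => simp [crd_zero]
  | insert i T hi ih => rw [Finset.sum_insert hi, Finset.sum_insert hi, crd_add, ih]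

lemma coord_mul (t : s) (x : A) (c : ℂ) :
    b.coord t (x * algebraMap ℂ A c) = b.coord t x * c := by
  rw [mul_comm, ← Algebra.smul_def, map_smul, smul_eq_mul, mul_comm]

lemma crd_mul (t : s) (f : MvPolynomial (Fin n) A) (g : MvPolynomial (Fin n) ℂ) :
    crd b t (f * map (algebraMap ℂ A) g) = crd b t f * g := by
  classical
  ext α
  rw [coeff_crd, coeff_mul, coeff_mul, map_sum]
  apply Finset.sum_congr rfl
  intro p _
  rw [coeff_map, coord_mul, coeff_crd]

lemma crd_C (t : s) (x : A) : crd b t (C x : MvPolynomial (Fin n) A) = C (b.coord t x) := by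
  classical
  ext α
  rw [coeff_crd, coeff_C, coeff_C]
  split_ifs
  · rfl
  · rw [map_zero]

/-- recovery of a polynomial from its coordinates -/
lemma crd_rec [DecidableEq s] (f : MvPolynomial (Fin n) A) (T : Finset s)
    (hT : ∀ α ∈ f.support, (b.repr (coeff α f)).support ⊆ T) :
    f = ∑ t ∈ T, C (b t) * map (algebraMap ℂ A) (crd b t f) := by
  ext α
  rw [coeff_sum]
  simp only [coeff_C_mul, coeff_map, coeff_crd]
  by_cases hα : α ∈ f.support
  · conv_lhs => rw [← b.linearCombination_repr (coeff α f)]
    rw [Finsupp.linearCombination_apply, Finsupp.sum_of_support_subset _ (hT α hα)]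
    · apply Finset.sum_congr rfl
      intro t _
      rw [Module.Basis.coord_apply, Algebra.smul_def, mul_comm]
    · simp
  · rw [notMem_support_iff.mp hα]
    simp

end coord

section overA

variable (A : Type) [CommRing A] [Algebra ℂ A]

/-- independence over `A` -/
lemma F1 {I : Ideal (MvPolynomial (Fin n) ℂ)} {N : ℕ} (hI : HomI I)
    (hN : ∀ j, N ≤ j → ∀ a : MvPolynomial (Fin n) ℂ, a.IsHomogeneous j → a ∈ I)
    (g : Fin n → MvPolynomial (Fin n) ℂ) (hg : ∀ i, g i ∈ I)
    (c : Ix I N → A) (a : Fin n → MvPolynomial (Fin n) A)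
    (h : ∑ j, C (c j) * map (algebraMap ℂ A) (el I N j : MvPolynomial (Fin n) ℂ) =
      ∑ i, a i * map (algebraMap ℂ A) (g i)) : ∀ j, c j = 0 := by
  classical
  set b := Module.Basis.ofVectorSpace ℂ A with hb
  have h1 : ∀ t, ∀ j, b.coord t (c j) = 0 := by
    intro t
    have h2 := congrArg (crd b t) h
    rw [crd_sum, crd_sum] at h2
    simp only [crd_mul, crd_C] at h2
    apply E2 hI hN
    have h3 : ∑ j, b.coord t (c j) • (el I N j : MvPolynomial (Fin n) ℂ) =
        ∑ i, crd b t (a i) * g i := by
      rw [← h2]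
      apply Finset.sum_congr rfl
      intro j _
      rw [smul_eq_C_mul]
    rw [h3]
    apply Ideal.sum_mem
    intro i _
    exact Ideal.mul_mem_left _ _ (hg i)
  intro j
  apply b.ext_elem
  intro t
  have h2 := h1 t j
  rw [Module.Basis.coord_apply] at h2
  rw [h2, map_zero]
  rfl

/-- Koszul syzygies over `A` -/
lemma F2 (g : Fin n → MvPolynomial (Fin n) ℂ) (d : Fin n → ℕ)
    (hd : ∀ i, 0 < d i) (hg : ∀ i, (g i).IsHomogeneous (d i))
    (h0 : ∀ x : Fin n → ℂ, (∀ i, eval x (g i) = 0) → x = 0)
    (a : Fin n → MvPolynomial (Fin n) A)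
    (ha : ∑ i, a i * map (algebraMap ℂ A) (g i) = 0) :
    ∃ c : Fin n → Fin n → MvPolynomial (Fin n) A, (∀ i j, c i j = - c j i) ∧
      ∀ i, a i = ∑ j, c i j * map (algebraMap ℂ A) (g j) := by
  classical
  set b := Module.Basis.ofVectorSpace ℂ A with hb
  have h1 : ∀ t, ∃ c : Fin n → Fin n → MvPolynomial (Fin n) ℂ, (∀ i j, c i j = - c j i) ∧
      ∀ i, crd b t (a i) = ∑ j, c i j * g j := by
    intro t
    apply koszul' g d hd hg h0
    have h2 := congrArg (crd b t) ha
    rw [crd_sum, crd_zero] at h2
    simp only [crd_mul] at h2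
    exact h2
  choose c hc1 hc2 using h1
  set T := Finset.univ.biUnion fun i => (a i).support.biUnion fun α =>
    (b.repr (coeff α (a i))).support with hTdef
  refine ⟨fun i j => ∑ t ∈ T, C (b t) * map (algebraMap ℂ A) (c t i j), ?_, ?_⟩
  · intro i j
    show ∑ t ∈ T, C (b t) * map (algebraMap ℂ A) (c t i j) =
      - ∑ t ∈ T, C (b t) * map (algebraMap ℂ A) (c t j i)
    rw [← Finset.sum_neg_distrib]
    apply Finset.sum_congr rfl
    intro t _
    rw [hc1 t i j, map_neg, mul_neg]
  · intro i
    have h2 := crd_rec b (a i) T (by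
      intro α hα t ht
      rw [hTdef, Finset.mem_biUnion]
      refine ⟨i, Finset.mem_univ i, ?_⟩
      rw [Finset.mem_biUnion]
      exact ⟨α, hα, ht⟩)
    rw [h2]
    simp only [Finset.sum_mul]
    rw [Finset.sum_comm]
    apply Finset.sum_congr rfl
    intro t _
    rw [hc2 t i, map_sum, Finset.mul_sum]
    apply Finset.sum_congr rfl
    intro j _
    rw [map_mul]
    ring

end overA

section deg

variable {A : Type} [CommRing A]

/-- `f` has degree at most `D - k` (and is zero if `D < k`) -/
def dg (f : MvPolynomial (Fin n) A) (D k : ℕ) : Prop :=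
  ∀ j, D < j + k → homogeneousComponent j f = 0

lemma dg_hc (f : MvPolynomial (Fin n) A) (D k : ℕ) : dg (hc D k f) D k := by
  intro j hj
  rw [comp_hc, if_neg (by omega)]

lemma dg_totalDegree {f : MvPolynomial (Fin n) A} {D k : ℕ} (hf : dg f D k) (hf0 : f ≠ 0) :
    f.totalDegree + k ≤ D := by
  by_contra hcon
  push Not at hcon
  have h2 : homogeneousComponent f.totalDegree f = 0 := hf _ hcon
  obtain ⟨α, hα, h3⟩ : ∃ α ∈ f.support, f.totalDegree = α.degree := by
    obtain ⟨α, hα, h3⟩ := Finset.exists_mem_eq_sup f.support (support_nonempty.mpr hf0)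
      (fun α => α.degree)
    refine ⟨α, hα, ?_⟩
    rw [← h3, totalDegree]
    rfl
  have h4 := congrArg (coeff α) h2
  rw [coeff_homogeneousComponent, if_pos h3.symm, coeff_zero] at h4
  exact (mem_support_iff.mp hα) h4

lemma dg_mul {f h : MvPolynomial (Fin n) A} {D k e m : ℕ} (hf : dg f D k)
    (hh : h.totalDegree < e) (hm : D + e ≤ m + k) : homogeneousComponent m (f * h) = 0 := by
  by_cases hf0 : f = 0
  · rw [hf0, zero_mul, map_zero]
  have h1 : f.totalDegree + k ≤ D := dg_totalDegree hf hf0
  apply homogeneousComponent_eq_zero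
  have h5 := totalDegree_mul f h
  omega

lemma dg_mul' {f h : MvPolynomial (Fin n) A} {D k e m : ℕ} (hf : dg f D k)
    (hh : h.IsHomogeneous e) (hm : D + e < m + k) : homogeneousComponent m (f * h) = 0 := by
  rcases Nat.lt_or_ge m e with h1 | h1
  · exact comp_mul_lt hh f h1
  · obtain ⟨j, rfl⟩ := Nat.exists_eq_add_of_le h1
    rw [add_comm e j, comp_mul hh, hf j (by omega), zero_mul]

end deg

section main

variable (g : Fin n → MvPolynomial (Fin n) ℂ) (d : Fin n → ℕ)
    (hd : ∀ i, 0 < d i) (hg : ∀ i, (g i).IsHomogeneous (d i))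
    (h0 : ∀ x : Fin n → ℂ, (∀ i, eval x (g i) = 0) → x = 0)
    {N : ℕ} (hN : ∀ j, N ≤ j → ∀ a : MvPolynomial (Fin n) ℂ, a.IsHomogeneous j →
      a ∈ Ideal.span (Set.range g))
    {A : Type} [CommRing A] [Algebra ℂ A] (G : Fin n → MvPolynomial (Fin n) A)
    (hG : ∀ i, (G i - map (algebraMap ℂ A) (g i)).totalDegree < d i)

include hg in
lemma homI_range : HomI (Ideal.span (Set.range g)) := by
  apply homI_span
  rintro _ ⟨i, rfl⟩
  exact ⟨d i, hg i⟩

include hg hN in
/-- forms modulo the ideal, graded version -/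
lemma E1' (f : MvPolynomial (Fin n) ℂ) {m : ℕ} (hf : f.IsHomogeneous m) :
    ∃ (c : Ix (Ideal.span (Set.range g)) N → ℂ) (a : Fin n → MvPolynomial (Fin n) ℂ),
      (∀ i, dg (a i) m (d i)) ∧
      f = ∑ j, c j • (el _ N j : MvPolynomial (Fin n) ℂ) + ∑ i, a i * g i := by
  have h1 := E1 (homI_range g d hg) hN f
  rw [Ideal.mem_span_range_iff_exists_fun] at h1
  obtain ⟨b, hb⟩ := h1
  refine ⟨lam f, fun i => hc m (d i) (b i), fun i => dg_hc _ _ _, ?_⟩
  have h2 := congrArg (homogeneousComponent m) hb
  rw [map_sub, homogeneousComponent_of_mem hf, if_pos rfl] at h2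
  have h3 : homogeneousComponent m (∑ i, b i * g i) = ∑ i, hc m (d i) (b i) * g i := by
    rw [← hc_zero, hc_sum]
    apply Finset.sum_congr rfl
    intro i _
    rw [hc_mul (hg i), zero_add]
  have h4 : homogeneousComponent m (∑ j : Ix (Ideal.span (Set.range g)) N,
      lam f j • (el _ N j : MvPolynomial (Fin n) ℂ)) =
      ∑ j : Ix (Ideal.span (Set.range g)) N, lam f j • (el _ N j : MvPolynomial (Fin n) ℂ) := by
    rw [map_sum]
    apply Finset.sum_congr rfl
    intro j _
    rw [map_smul, homogeneousComponent_of_mem (el _ N j).2]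
    by_cases hj : (j.1 : ℕ) = m
    · rw [if_pos hj.symm]
    · rw [lam_zero hf j hj, zero_smul, zero_smul]
  rw [h3, h4] at h2
  rw [h2]
  ring

include hg hN hG in
/-- generation -/
lemma gen (m : ℕ) : ∀ f : MvPolynomial (Fin n) A, f.totalDegree < m →
    ∃ c : Ix (Ideal.span (Set.range g)) N → A,
      f - ∑ j, C (c j) * map (algebraMap ℂ A) (el _ N j : MvPolynomial (Fin n) ℂ) ∈
        Ideal.span (Set.range G) := by
  classical
  induction m with
  | zero => intro f hf; omega
  | succ m ih =>
    -- sums
    have hsum : ∀ (T : Finset (Fin n →₀ ℕ)) (F : (Fin n →₀ ℕ) → MvPolynomial (Fin n) A),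
        (∀ α ∈ T, ∃ c : Ix (Ideal.span (Set.range g)) N → A,
          F α - ∑ j, C (c j) * map (algebraMap ℂ A) (el _ N j : MvPolynomial (Fin n) ℂ) ∈
          Ideal.span (Set.range G)) →
        ∃ c : Ix (Ideal.span (Set.range g)) N → A,
          (∑ α ∈ T, F α) - ∑ j, C (c j) *
            map (algebraMap ℂ A) (el _ N j : MvPolynomial (Fin n) ℂ) ∈
          Ideal.span (Set.range G) := by
      intro T F hT
      choose! c hc using hT
      refine ⟨fun j => ∑ α ∈ T, c α j, ?_⟩
      have h1 : (∑ α ∈ T, F α) - ∑ j, C (∑ α ∈ T, c α j) *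
          map (algebraMap ℂ A) (el _ N j : MvPolynomial (Fin n) ℂ) =
          ∑ α ∈ T, (F α - ∑ j, C (c α j) *
            map (algebraMap ℂ A) (el _ N j : MvPolynomial (Fin n) ℂ)) := by
        rw [Finset.sum_sub_distrib]
        congr 1
        rw [Finset.sum_comm]
        apply Finset.sum_congr rfl
        intro j _
        rw [map_sum, Finset.sum_mul]
      rw [h1]
      exact Ideal.sum_mem _ hc
    intro f hf
    have hmon : ∀ α ∈ f.support, ∃ c : Ix (Ideal.span (Set.range g)) N → A,
          monomial α (coeff α f) - ∑ j, C (c j) *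
            map (algebraMap ℂ A) (el _ N j : MvPolynomial (Fin n) ℂ) ∈
          Ideal.span (Set.range G) := by
      intro α hα
      have hdeg : α.degree < m + 1 := by
        have h1 : α.degree ≤ f.totalDegree := by
          have := le_totalDegree hα
          exact this
        omega
      obtain ⟨c1, a, ha, h1⟩ := E1' g d hg hN (monomial α (1 : ℂ)) (m := α.degree)
        (isHomogeneous_monomial 1 rfl)
      -- the lower order part
      set r : MvPolynomial (Fin n) A := ∑ i, map (algebraMap ℂ A) (a i) *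
        (G i - map (algebraMap ℂ A) (g i)) with hr
      have hr1 : ∀ i, (map (algebraMap ℂ A) (a i) *
          (G i - map (algebraMap ℂ A) (g i))).totalDegree < α.degree ∨
          map (algebraMap ℂ A) (a i) * (G i - map (algebraMap ℂ A) (g i)) = 0 := by
        intro i
        by_cases hai : a i = 0
        · right
          rw [hai, map_zero, zero_mul]
        left
        have h2 : (a i).totalDegree + d i ≤ α.degree := dg_totalDegree (ha i) hai
        have h3 := totalDegree_mul (map (algebraMap ℂ A) (a i)) (G i - map (algebraMap ℂ A) (g i))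
        have h4 : (map (algebraMap ℂ A) (a i)).totalDegree ≤ (a i).totalDegree :=
          Finset.sup_mono (support_map_subset _ _)
        have h5 := hG i
        omega
      have hr2 : r = 0 ∨ r.totalDegree < α.degree := by
        by_cases h6 : ∀ i, map (algebraMap ℂ A) (a i) * (G i - map (algebraMap ℂ A) (g i)) = 0
        · left
          rw [hr]
          exact Finset.sum_eq_zero fun i _ => h6 i
        · right
          push Not at h6
          obtain ⟨i0, hi0⟩ := h6
          have h7 : 0 < α.degree := by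
            rcases hr1 i0 with h8 | h8
            · omega
            · exact absurd h8 hi0
          have h9 : r.totalDegree ≤ α.degree - 1 := by
            rw [hr]
            refine (totalDegree_finsetSum _ _).trans ?_
            apply Finset.sup_le
            intro i _
            rcases hr1 i with h8 | h8
            · omega
            · rw [h8, totalDegree_zero]
              exact Nat.zero_le _
          omega
      obtain ⟨c2, hc2⟩ : ∃ c : Ix (Ideal.span (Set.range g)) N → A,
          r - ∑ j, C (c j) * map (algebraMap ℂ A) (el _ N j : MvPolynomial (Fin n) ℂ) ∈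
            Ideal.span (Set.range G) := by
        rcases hr2 with h6 | h6
        · refine ⟨fun _ => 0, ?_⟩
          rw [h6]
          simp
        · exact ih r (by omega)
      have h2 := congrArg (map (algebraMap ℂ A)) h1
      rw [map_add, map_sum, map_sum, map_monomial, map_one] at h2
      simp only [smul_eq_C_mul, map_mul, map_C] at h2
      refine ⟨fun j => coeff α f * (algebraMap ℂ A (c1 j) - c2 j), ?_⟩
      have h3 : monomial α (coeff α f) - ∑ j, C (coeff α f * (algebraMap ℂ A (c1 j) - c2 j)) *
            map (algebraMap ℂ A) (el _ N j : MvPolynomial (Fin n) ℂ) =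
          C (coeff α f) * (∑ i, map (algebraMap ℂ A) (a i) * G i) -
          C (coeff α f) * (r - ∑ j, C (c2 j) *
            map (algebraMap ℂ A) (el _ N j : MvPolynomial (Fin n) ℂ)) := by
        have h4 : monomial α (coeff α f) = C (coeff α f) * monomial α (1 : A) := by
          rw [C_mul_monomial, mul_one]
        have h5 : ∑ i, map (algebraMap ℂ A) (a i) * G i =
            ∑ i, map (algebraMap ℂ A) (a i) * map (algebraMap ℂ A) (g i) + r := by
          rw [hr, ← Finset.sum_add_distrib]
          apply Finset.sum_congr rfl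
          intro i _
          ring
        have h6 : ∑ j, C (coeff α f * (algebraMap ℂ A (c1 j) - c2 j)) *
            map (algebraMap ℂ A) (el _ N j : MvPolynomial (Fin n) ℂ) =
            C (coeff α f) * (∑ j, C (algebraMap ℂ A (c1 j)) *
              map (algebraMap ℂ A) (el (Ideal.span (Set.range g)) N j : MvPolynomial (Fin n) ℂ)) -
            C (coeff α f) * ∑ j, C (c2 j) *
              map (algebraMap ℂ A) (el _ N j : MvPolynomial (Fin n) ℂ) := by
          rw [Finset.mul_sum, Finset.mul_sum, ← Finset.sum_sub_distrib]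
          apply Finset.sum_congr rfl
          intro j _
          rw [map_mul, map_sub]
          ring
        rw [h4, h2, h5, h6]
        ring
      rw [h3]
      apply Ideal.sub_mem
      · apply Ideal.mul_mem_left
        apply Ideal.sum_mem
        intro i _
        exact Ideal.mul_mem_left _ _ (Ideal.subset_span ⟨i, rfl⟩)
      · exact Ideal.mul_mem_left _ _ hc2
    obtain ⟨c, hc⟩ := hsum f.support (fun α => monomial α (coeff α f)) hmon
    refine ⟨c, ?_⟩
    rw [support_sum_monomial_coeff f] at hc
    exact hc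

include hd hg h0 hN hG in
/-- independence -/
lemma indep (D : ℕ) : ∀ (c : Ix (Ideal.span (Set.range g)) N → A)
    (a : Fin n → MvPolynomial (Fin n) A), (∀ i, dg (a i) D (d i)) →
    ∑ j, C (c j) * map (algebraMap ℂ A) (el _ N j : MvPolynomial (Fin n) ℂ) = ∑ i, a i * G i →
    ∀ j, c j = 0 := by
  classical
  have hI := homI_range g d hg
  have hgI : ∀ i, g i ∈ Ideal.span (Set.range g) := fun i => Ideal.subset_span ⟨i, rfl⟩
  have hgA : ∀ i, (map (algebraMap ℂ A) (g i)).IsHomogeneous (d i) := fun i =>
    (hg i).map _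
  induction D with
  | zero =>
    intro c a ha h
    apply F1 A hI hN g hgI c a
    rw [h]
    apply Finset.sum_congr rfl
    intro i _
    have h1 : a i = 0 := by
      by_contra hne
      have := dg_totalDegree (ha i) hne
      have := hd i
      omega
    rw [h1, zero_mul, zero_mul]
  | succ D ih =>
    intro c a ha h
    -- the component of degree `D + 1`
    have h1 : ∀ i, homogeneousComponent (D + 1) (a i * G i) =
        hc (D + 1) (d i) (a i) * map (algebraMap ℂ A) (g i) := by
      intro i
      have h2 : a i * G i = a i * map (algebraMap ℂ A) (g i) +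
          a i * (G i - map (algebraMap ℂ A) (g i)) := by ring
      rw [h2, map_add, dg_mul (ha i) (hG i) le_rfl, add_zero, ← hc_zero, hc_mul (hgA i), zero_add]
    have h2 := congrArg (homogeneousComponent (D + 1)) h
    rw [map_sum, map_sum] at h2
    simp only [h1] at h2
    have h3 : ∀ j : Ix (Ideal.span (Set.range g)) N, homogeneousComponent (D + 1)
        (C (c j) * map (algebraMap ℂ A) (el _ N j : MvPolynomial (Fin n) ℂ)) =
        C (if (j.1 : ℕ) = D + 1 then c j else 0) *
          map (algebraMap ℂ A) (el _ N j : MvPolynomial (Fin n) ℂ) := by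
      intro j
      have h4 : (map (algebraMap ℂ A) (el _ N j : MvPolynomial (Fin n) ℂ)).IsHomogeneous
        (j.1 : ℕ) := IsHomogeneous.map (el _ N j).2 _
      rw [homogeneousComponent_C_mul, homogeneousComponent_of_mem h4]
      by_cases hj : (j.1 : ℕ) = D + 1
      · rw [if_pos hj.symm, if_pos hj]
      · rw [if_neg (Ne.symm hj), if_neg hj, mul_zero, map_zero, zero_mul]
    simp only [h3] at h2
    have h4 := F1 A hI hN g hgI _ _ h2
    have h5 : ∑ i, hc (D + 1) (d i) (a i) * map (algebraMap ℂ A) (g i) = 0 := by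
      rw [← h2]
      apply Finset.sum_eq_zero
      intro j _
      rw [h4 j, map_zero, zero_mul]
    obtain ⟨k0, hk1, hk2⟩ := F2 A g d hd hg h0 _ h5
    -- homogeneous Koszul coefficients
    set k : Fin n → Fin n → MvPolynomial (Fin n) A := fun i j => hc (D + 1) (d i + d j) (k0 i j)
      with hk
    have hk3 : ∀ i j, k i j = - k j i := by
      intro i j
      rw [hk]
      dsimp only
      rw [hk1 i j, hc_neg, add_comm (d i) (d j)]
    have hk4 : ∀ i, hc (D + 1) (d i) (a i) = ∑ j, k i j * map (algebraMap ℂ A) (g j) := by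
      intro i
      have h6 := congrArg (hc (D + 1) (d i)) (hk2 i)
      rw [hc_hc, hc_sum] at h6
      rw [h6]
      apply Finset.sum_congr rfl
      intro j _
      rw [hc_mul (hgA j)]
    have hk5 : ∀ i j, dg (k i j) (D + 1) (d i + d j) := fun i j => dg_hc _ _ _
    -- the new coefficients
    have hsym : ∑ i, (∑ j, k i j * G j) * G i = 0 := by
      have h6 : ∑ i, (∑ j, k i j * G j) * G i = - ∑ i, (∑ j, k i j * G j) * G i := by
        conv_lhs =>
          simp only [Finset.sum_mul]
          rw [Finset.sum_comm]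
        rw [← Finset.sum_neg_distrib]
        apply Finset.sum_congr rfl
        intro i _
        rw [Finset.sum_mul, ← Finset.sum_neg_distrib]
        apply Finset.sum_congr rfl
        intro j _
        rw [hk3 j i]
        ring
      have h7 : (2 : MvPolynomial (Fin n) A) * ∑ i, (∑ j, k i j * G j) * G i = 0 := by
        linear_combination h6
      have h8 : (C (algebraMap ℂ A (1 / 2)) : MvPolynomial (Fin n) A) * 2 = 1 := by
        have h9 : (2 : MvPolynomial (Fin n) A) = C (algebraMap ℂ A 2) := by
          rw [map_ofNat, map_ofNat]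
        rw [h9, ← map_mul, ← map_mul]
        norm_num
      calc ∑ i, (∑ j, k i j * G j) * G i = (C (algebraMap ℂ A (1 / 2)) * 2) *
            ∑ i, (∑ j, k i j * G j) * G i := by rw [h8, one_mul]
        _ = 0 := by rw [mul_assoc, h7, mul_zero]
    apply ih c (fun i => a i - ∑ j, k i j * G j)
    · intro i j hj
      have hkg : ∀ l, homogeneousComponent j (k i l * G l) =
          homogeneousComponent j (k i l * map (algebraMap ℂ A) (g l)) := by
        intro l
        have h6 : k i l * G l = k i l * map (algebraMap ℂ A) (g l) +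
          k i l * (G l - map (algebraMap ℂ A) (g l)) := by ring
        rw [h6, map_add, dg_mul (hk5 i l) (hG l) (by omega), add_zero]
      show homogeneousComponent j (a i - ∑ l, k i l * G l) = 0
      rw [map_sub, map_sum]
      simp only [hkg]
      rw [← map_sum, ← hk4 i, comp_hc]
      by_cases h6 : j + d i = D + 1
      · rw [if_pos h6, hc, if_pos (by omega), show D + 1 - d i = j by omega, sub_self]
      · rw [if_neg h6, ha i j (by omega), sub_zero]
    · rw [h]
      simp only [sub_mul, Finset.sum_sub_distrib]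
      rw [hsym, sub_zero]

end main

end

end Pool.Agent.helper62.BZ
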