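import Pool.Agent.helper62.BZ.Reg

set_option autoImplicit false

/-!
# Koszul syzygies; homogeneous bases
-/

namespace Pool.Agent.helper62.BZ

open MvPolynomial

noncomputable section

variable {n : ℕ}

/-- the syzygies of a part of the sequence are the Koszul syzygies -/
lemma koszul_aux {ι : Type} [DecidableEq ι] (g : ι → MvPolynomial (Fin n) ℂ)
    (hr : ∀ (A : Finset ι) (i : ι), i ∉ A → Rg (g i) (Ideal.span (g '' A))) (A : Finset ι) :
    ∀ a : ι → MvPolynomial (Fin n) ℂ, ∑ i ∈ A, a i * g i = 0 →
    ∃ c : ι → ι → MvPolynomial (Fin n) ℂ, (∀ i j, c i j = - c j i) ∧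
      ∀ i ∈ A, a i = ∑ j ∈ A, c i j * g j := by
  induction A using Finset.induction_on with
  | empty =>
    intro a _
    exact ⟨fun _ _ => 0, by simp, by simp⟩
  | insert s A hs ih =>
    intro a ha
    rw [Finset.sum_insert hs] at ha
    have h1 : a s * g s ∈ Ideal.span (g '' A) := by
      have h2 : a s * g s = - ∑ i ∈ A, a i * g i := by linear_combination ha
      rw [h2]
      apply neg_mem
      apply Ideal.sum_mem
      intro i hi
      exact Ideal.mul_mem_left _ _ (Ideal.subset_span ⟨i, hi, rfl⟩)
    have h2 := hr A s hs _ h1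
    obtain ⟨b, hb⟩ : ∃ b : ι → MvPolynomial (Fin n) ℂ, ∑ j ∈ A, b j • g j = a s :=
      (Submodule.mem_span_image_finset_iff_exists_fun' _).mp h2
    simp only [smul_eq_mul] at hb
    obtain ⟨c, hc1, hc2⟩ := ih (fun i => a i + b i * g s) (by
      rw [← ha, ← hb, Finset.sum_mul, add_comm, ← Finset.sum_add_distrib]
      apply Finset.sum_congr rfl
      intro i _
      ring)
    refine ⟨fun i j => if i = s then (if j = s then 0 else b j) else (if j = s then - b i else
      c i j), ?_, ?_⟩
    · intro i j
      by_cases hi : i = s <;> by_cases hj : j = s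
      · simp [hi, hj]
      · simp [hi, hj]
      · simp [hi, hj]
      · simp only [hi, hj, if_false]
        exact hc1 i j
    · intro i hi
      rw [Finset.sum_insert hs]
      rcases Finset.mem_insert.mp hi with his | hi'
      · rw [his]
        simp only [if_true, zero_mul, zero_add]
        rw [← hb]
        apply Finset.sum_congr rfl
        intro j hj
        have hjs : j ≠ s := fun h => hs (h ▸ hj)
        rw [if_neg hjs]
      · have his : i ≠ s := by
          rintro rfl
          exact hs hi'
        simp only [his, if_false, if_true]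
        have h3 := hc2 i hi'
        have h4 : ∑ j ∈ A, (if j = s then - b i else c i j) * g j = ∑ j ∈ A, c i j * g j := by
          apply Finset.sum_congr rfl
          intro j hj
          rw [if_neg]
          rintro rfl
          exact hs hj
        rw [h4, ← h3]
        ring

/-- **Koszul syzygies** -/
theorem koszul' (g : Fin n → MvPolynomial (Fin n) ℂ) (d : Fin n → ℕ)
    (hd : ∀ i, 0 < d i) (hg : ∀ i, (g i).IsHomogeneous (d i))
    (h0 : ∀ x : Fin n → ℂ, (∀ i, eval x (g i) = 0) → x = 0)
    (a : Fin n → MvPolynomial (Fin n) ℂ) (ha : ∑ i, a i * g i = 0) :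
    ∃ c : Fin n → Fin n → MvPolynomial (Fin n) ℂ, (∀ i j, c i j = - c j i) ∧
      ∀ i, a i = ∑ j, c i j * g j := by
  obtain ⟨c, h1, h2⟩ := koszul_aux g (ci n g d hd hg h0).1 Finset.univ a ha
  exact ⟨c, h1, fun i => h2 i (Finset.mem_univ i)⟩

section hc

variable {R : Type} [CommRing R]

/-- the component of degree `D - k`, zero if `D < k` -/
def hc (D k : ℕ) (f : MvPolynomial (Fin n) R) : MvPolynomial (Fin n) R :=
  if k ≤ D then homogeneousComponent (D - k) f else 0

lemma hc_mul {g : MvPolynomial (Fin n) R} {e : ℕ} (hg : g.IsHomogeneous e) (D k : ℕ)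
    (f : MvPolynomial (Fin n) R) : hc D k (f * g) = hc D (k + e) f * g := by
  rw [hc, hc]
  by_cases h1 : k + e ≤ D
  · rw [if_pos (by omega), if_pos h1, show D - k = (D - (k + e)) + e by omega, comp_mul hg]
  · rw [if_neg h1, zero_mul]
    by_cases h2 : k ≤ D
    · rw [if_pos h2, comp_mul_lt hg _ (by omega)]
    · rw [if_neg h2]

lemma hc_zero_right (D k : ℕ) : hc D k (0 : MvPolynomial (Fin n) R) = 0 := by
  rw [hc]; split_ifs <;> simp

lemma hc_neg (D k : ℕ) (f : MvPolynomial (Fin n) R) : hc D k (-f) = - hc D k f := by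
  rw [hc, hc]; split_ifs <;> simp

lemma hc_sum {ι : Type} (s : Finset ι) (D k : ℕ) (f : ι → MvPolynomial (Fin n) R) :
    hc D k (∑ i ∈ s, f i) = ∑ i ∈ s, hc D k (f i) := by
  rw [hc]
  by_cases h : k ≤ D
  · rw [if_pos h, map_sum]
    exact Finset.sum_congr rfl fun i _ => by rw [hc, if_pos h]
  · rw [if_neg h]
    symm
    exact Finset.sum_eq_zero fun i _ => by rw [hc, if_neg h]

lemma hc_hc (D k : ℕ) (f : MvPolynomial (Fin n) R) : hc D k (hc D k f) = hc D k f := by
  by_cases h : k ≤ D
  · rw [hc, hc, if_pos h, if_pos h, homogeneousComponent_of_mem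
      (homogeneousComponent_isHomogeneous (D - k) f), if_pos rfl]
  · rw [hc, if_neg h, hc, if_neg h]

lemma hc_zero (D : ℕ) (f : MvPolynomial (Fin n) R) : hc D 0 f = homogeneousComponent D f := by
  rw [hc, if_pos (Nat.zero_le _), Nat.sub_zero]

/-- components of `hc D k f` -/
lemma comp_hc (D k j : ℕ) (f : MvPolynomial (Fin n) R) :
    homogeneousComponent j (hc D k f) = if j + k = D then hc D k f else 0 := by
  by_cases h : k ≤ D
  · rw [hc, if_pos h, homogeneousComponent_of_mem (homogeneousComponent_isHomogeneous (D - k) f)]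
    by_cases h2 : j = D - k
    · rw [if_pos h2, if_pos (by omega)]
    · rw [if_neg h2, if_neg (by omega)]
  · rw [hc, if_neg h, if_neg (by omega), map_zero]

end hc

end

end Pool.Agent.helper62.BZ
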