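import Pool.Agent.helper62.BZ.Free

set_option autoImplicit false

/-!
# Complete intersections: the interface

`g i` forms of positive degree in `n` variables over `ℂ` without a common zero besides `0`.
Then for every commutative `ℂ`-algebra `A` and all polynomials `G i` over `A` with top forms `g i`
the `A`-algebra `A[x]/(G)` is free with a basis (of `∏ d i` homogeneous polynomials over `ℂ`)
which does not depend on `A` and `G`.
-/

namespace Pool.Agent.helper62.BZ

open MvPolynomial

/-- **Complete intersections.** -/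
theorem exists_basis {n : ℕ} (g : Fin n → MvPolynomial (Fin n) ℂ) (d : Fin n → ℕ)
    (hd : ∀ i, 0 < d i) (hg : ∀ i, (g i).IsHomogeneous (d i))
    (h0 : ∀ x : Fin n → ℂ, (∀ i, eval x (g i) = 0) → x = 0) :
    ∃ (ι : Type) (_ : Fintype ι) (e : ι → MvPolynomial (Fin n) ℂ) (de : ι → ℕ),
      (∀ j, (e j).IsHomogeneous (de j)) ∧ Fintype.card ι = ∏ i, d i ∧
      ∀ (A : Type) [CommRing A] [Algebra ℂ A] (G : Fin n → MvPolynomial (Fin n) A),
        (∀ i, (G i - map (algebraMap ℂ A) (g i)).totalDegree < d i) →
        ∃ b : Module.Basis ι A (MvPolynomial (Fin n) A ⧸ Ideal.span (Set.range G)),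
          ∀ j, b j = Ideal.Quotient.mk _ (map (algebraMap ℂ A) (e j)) := by
  classical
  set I := Ideal.span (Set.range g) with hIdef
  have hI : HomI I := homI_range g d hg
  obtain ⟨N, hN⟩ := forms_mem (I := I) (by
    intro x hx
    exact h0 x fun i => hx (g i) (Ideal.subset_span ⟨i, rfl⟩))
  refine ⟨Ix I N, inferInstance, fun j => (el I N j : MvPolynomial (Fin n) ℂ),
    fun j => (j.1 : ℕ), fun j => (el I N j).2, ?_, ?_⟩
  · rw [card_Ix, ← finrank_quot hI hN]
    exact (ci n g d hd hg h0).2
  · intro A _ _ G hG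
    have hsm : ∀ c : Ix I N → A, ∑ j, c j • (Ideal.Quotient.mk (Ideal.span (Set.range G))
        (map (algebraMap ℂ A) (el I N j : MvPolynomial (Fin n) ℂ))) =
        Ideal.Quotient.mk (Ideal.span (Set.range G)) (∑ j, C (c j) *
          map (algebraMap ℂ A) (el I N j : MvPolynomial (Fin n) ℂ)) := by
      intro c
      rw [map_sum]
      apply Finset.sum_congr rfl
      intro j _
      rw [← smul_eq_C_mul]
      rfl
    have hli : LinearIndependent A fun j : Ix I N => Ideal.Quotient.mk (Ideal.span (Set.range G))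
        (map (algebraMap ℂ A) (el I N j : MvPolynomial (Fin n) ℂ)) := by
      rw [Fintype.linearIndependent_iff]
      intro c hc
      rw [hsm, Ideal.Quotient.eq_zero_iff_mem, Ideal.mem_span_range_iff_exists_fun] at hc
      obtain ⟨a, ha⟩ := hc
      refine indep g d hd hg h0 hN G hG (∑ i, ((a i).totalDegree + d i)) c a ?_ ha.symm
      intro i j hj
      apply homogeneousComponent_eq_zero
      have h1 : (a i).totalDegree + d i ≤ ∑ i, ((a i).totalDegree + d i) :=
        Finset.single_le_sum (f := fun i => (a i).totalDegree + d i)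
          (fun _ _ => Nat.zero_le _) (Finset.mem_univ i)
      omega
    have hsp : ⊤ ≤ Submodule.span A (Set.range fun j : Ix I N =>
        Ideal.Quotient.mk (Ideal.span (Set.range G))
        (map (algebraMap ℂ A) (el I N j : MvPolynomial (Fin n) ℂ))) := by
      rintro y -
      obtain ⟨f, rfl⟩ := Ideal.Quotient.mk_surjective y
      obtain ⟨c, hc⟩ := gen g d hg hN G hG (f.totalDegree + 1) f (Nat.lt_succ_self _)
      rw [← Ideal.Quotient.eq_zero_iff_mem, map_sub, sub_eq_zero, ← hsm] at hc
      rw [hc]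
      apply Submodule.sum_mem
      intro j _
      exact Submodule.smul_mem _ _ (Submodule.subset_span ⟨j, rfl⟩)
    exact ⟨Module.Basis.mk hli hsp, fun j => by rw [Module.Basis.mk_apply]⟩

/-- the syzygies of `g` are the Koszul syzygies -/
theorem koszul {n : ℕ} (g : Fin n → MvPolynomial (Fin n) ℂ) (d : Fin n → ℕ)
    (hd : ∀ i, 0 < d i) (hg : ∀ i, (g i).IsHomogeneous (d i))
    (h0 : ∀ x : Fin n → ℂ, (∀ i, eval x (g i) = 0) → x = 0)
    (a : Fin n → MvPolynomial (Fin n) ℂ) (ha : ∑ i, a i * g i = 0) :
    ∃ c : Fin n → Fin n → MvPolynomial (Fin n) ℂ, (∀ i j, c i j = - c j i) ∧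
      ∀ i, a i = ∑ j, c i j * g j :=
  koszul' g d hd hg h0 a ha

end Pool.Agent.helper62.BZ
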