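import Pool.Agent.helper62.BZ.Ell

set_option autoImplicit false

/-!
# Complete intersections of forms: regularity and Bezout's number
-/

namespace Pool.Agent.helper62.BZ

open MvPolynomial

noncomputable section

variable {n : ℕ}

lemma range_comp_image {α β γ : Type} (f : β → γ) (g : α → β) (A : Set α) :
    (fun x => f (g x)) '' A = f '' (g '' A) := by
  rw [Set.image_image]

/-- elements of the image ideal lift -/
lemma lift_mem (a : Fin n → ℂ) (I : Ideal (MvPolynomial (Fin (n + 1)) ℂ))
    {v : MvPolynomial (Fin (n + 1)) ℂ} (hv : pia a v ∈ I.map (pia a)) :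
    ∃ z ∈ I, ∃ w, v = z + w * ell a := by
  obtain ⟨z, hz, h1⟩ := (Ideal.mem_map_iff_of_surjective (pia a) (pia_surjective a)).mp hv
  have h2 : v - z ∈ Ideal.span {ell a} := by
    rw [← mem_span_ell_iff, map_sub, h1, sub_self]
  obtain ⟨w, hw⟩ := Ideal.mem_span_singleton'.mp h2
  exact ⟨z, hz, w, by rw [hw]; ring⟩

/-- regularity lifts from the hyperplane -/
theorem lift_reg (a : Fin n → ℂ) {ι : Type} [DecidableEq ι] (h : ι → MvPolynomial (Fin (n + 1)) ℂ)
    (hh : ∀ i, ∃ d, (h i).IsHomogeneous d)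
    (H : ∀ (A : Finset ι) (i : ι), i ∉ A →
      Rg (pia a (h i)) ((Ideal.span (h '' A)).map (pia a))) (A : Finset ι) :
    Rg (ell a) (Ideal.span (h '' A)) ∧ ∀ i, i ∉ A → Rg (h i) (Ideal.span (h '' A)) := by
  induction A using Finset.induction_on with
  | empty =>
    have e : Ideal.span (h '' (∅ : Finset ι)) = ⊥ := by simp
    rw [e]
    constructor
    · intro u hu
      rw [Ideal.mem_bot] at hu ⊢
      exact (mul_eq_zero.mp hu).resolve_right (ell_ne_zero a)
    · intro i hi
      have h1 := H ∅ i hi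
      rw [e, Ideal.map_bot] at h1
      have h2 : h i ≠ 0 := by
        intro h0
        have h3 := h1 1 (by rw [h0, map_zero, mul_zero]; exact Ideal.zero_mem _)
        rw [Ideal.mem_bot] at h3
        exact one_ne_zero h3
      intro u hu
      rw [Ideal.mem_bot] at hu ⊢
      exact (mul_eq_zero.mp hu).resolve_right h2
  | insert i A hi ih =>
    obtain ⟨ih1, ih2⟩ := ih
    set I := Ideal.span (h '' A) with hI
    have e : Ideal.span (h '' ((insert i A : Finset ι) : Set ι)) = I ⊔ Ideal.span {h i} := by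
      rw [Finset.coe_insert, Set.image_insert_eq, Ideal.span_insert, sup_comm]
    rw [e]
    have hmem : ∀ {u : MvPolynomial (Fin (n + 1)) ℂ}, u ∈ I ⊔ Ideal.span {h i} →
        ∃ z ∈ I, ∃ v, u = z + v * h i := by
      intro u hu
      obtain ⟨z, hz, w, hw, h1⟩ := Submodule.mem_sup.mp hu
      obtain ⟨v, rfl⟩ := Ideal.mem_span_singleton'.mp hw
      exact ⟨z, hz, v, h1.symm⟩
    have hmem' : ∀ {z v : MvPolynomial (Fin (n + 1)) ℂ}, z ∈ I → z + v * h i ∈
        I ⊔ Ideal.span {h i} := fun hz => Ideal.add_mem _ (Ideal.mem_sup_left hz)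
      (Ideal.mem_sup_right (Ideal.mem_span_singleton'.mpr ⟨_, rfl⟩))
    have hle : I ≤ I ⊔ Ideal.span {h i} := le_sup_left
    -- the linear form
    have h1' : Rg (ell a) (I ⊔ Ideal.span {h i}) := by
      intro u hu
      obtain ⟨z, hz, v, h1⟩ := hmem hu
      have h2 : pia a v * pia a (h i) ∈ I.map (pia a) := by
        have h3 : pia a v * pia a (h i) = - pia a z := by
          have h4 := congrArg (pia a) h1
          rw [map_mul, pia_ell, mul_zero, map_add, map_mul] at h4
          linear_combination -h4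
        rw [h3, ← map_neg]
        exact Ideal.mem_map_of_mem _ (I.neg_mem hz)
      obtain ⟨z', hz', w, h3⟩ := lift_mem a I (H A i hi _ h2)
      have h4 : (u - w * h i) * ell a ∈ I := by
        have h5 : (u - w * h i) * ell a = z + z' * h i := by
          rw [sub_mul, h1, h3]
          ring
        rw [h5]
        exact I.add_mem hz (I.mul_mem_right _ hz')
      have h5 := ih1 _ h4
      have h6 : u = (u - w * h i) + w * h i := by ring
      rw [h6]
      exact hmem' h5
    refine ⟨h1', ?_⟩
    intro j hj u hu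
    have hHom : HomI (I ⊔ Ideal.span {h i}) := by
      rw [← e]
      apply homI_span
      rintro _ ⟨x, _, rfl⟩
      exact hh x
    -- one step
    have step : ∀ u : MvPolynomial (Fin (n + 1)) ℂ, u * h j ∈ I ⊔ Ideal.span {h i} →
        ∃ z ∈ I ⊔ Ideal.span {h i}, ∃ u', u = z + u' * ell a ∧
          u' * h j ∈ I ⊔ Ideal.span {h i} := by
      intro u hu
      have h2 : pia a u * pia a (h j) ∈ (I ⊔ Ideal.span {h i}).map (pia a) := by
        rw [← map_mul]
        exact Ideal.mem_map_of_mem _ hu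
      have h3 := H (insert i A) j hj
      rw [e] at h3
      obtain ⟨z, hz, u', h4⟩ := lift_mem a _ (h3 _ h2)
      refine ⟨z, hz, u', h4, h1' _ ?_⟩
      have h5 : u' * h j * ell a = u * h j - z * h j := by
        rw [h4]
        ring
      rw [h5]
      exact Ideal.sub_mem _ hu (Ideal.mul_mem_right _ _ hz)
    apply krull hHom (ell_hom a)
    have iter : ∀ m : ℕ, ∃ z ∈ I ⊔ Ideal.span {h i}, ∃ c, u = z + c * ell a ^ m ∧
        c * h j ∈ I ⊔ Ideal.span {h i} := by
      intro m
      induction m with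
      | zero => exact ⟨0, Ideal.zero_mem _, u, by simp, hu⟩
      | succ m ihm =>
        obtain ⟨z, hz, c, h1, h2⟩ := ihm
        obtain ⟨z', hz', c', h3, h4⟩ := step c h2
        refine ⟨z + z' * ell a ^ m, Ideal.add_mem _ hz (Ideal.mul_mem_right _ _ hz'), c', ?_, h4⟩
        rw [h1, h3]
        ring
    intro m
    obtain ⟨z, hz, c, h1, _⟩ := iter m
    exact ⟨z, hz, c, h1⟩

/-- the last form is regular -/
theorem last_reg {J : Ideal (MvPolynomial (Fin n) ℂ)} (hJ : HomI J)
    {l : MvPolynomial (Fin n) ℂ} (hl : l.IsHomogeneous 1) (hlr : Rg l J)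
    {g : MvPolynomial (Fin n) ℂ} {d : ℕ} (hd : 0 < d) (hg : g.IsHomogeneous d) {N : ℕ}
    (h1 : ∀ j, N ≤ j → ∀ a : MvPolynomial (Fin n) ℂ, a.IsHomogeneous j → a ∈ J ⊔ Ideal.span {l})
    (h2 : ∀ j, N ≤ j → ∀ a : MvPolynomial (Fin n) ℂ, a.IsHomogeneous j → a ∈ J ⊔ Ideal.span {g}) :
    Rg g J ∧ Module.finrank ℂ (MvPolynomial (Fin n) ℂ ⧸ (J ⊔ Ideal.span {g})) =
      d * Module.finrank ℂ (MvPolynomial (Fin n) ℂ ⧸ (J ⊔ Ideal.span {l})) := by
  have hHomg : HomI (J ⊔ Ideal.span {g}) := by
    intro f hf j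
    obtain ⟨z, hz, w, hw, h1⟩ := Submodule.mem_sup.mp hf
    obtain ⟨v, rfl⟩ := Ideal.mem_span_singleton'.mp hw
    rw [← h1, map_add]
    apply Ideal.add_mem _ (Ideal.mem_sup_left (hJ z hz j))
    rcases Nat.lt_or_ge j d with h3 | h3
    · rw [comp_mul_lt hg v h3]
      exact Ideal.zero_mem _
    · obtain ⟨e, rfl⟩ : ∃ e, j = e + d := ⟨j - d, by omega⟩
      rw [comp_mul hg]
      exact Ideal.mem_sup_right (Ideal.mem_span_singleton'.mpr ⟨_, rfl⟩)
  have hHoml : HomI (J ⊔ Ideal.span {l}) := by
    intro f hf j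
    obtain ⟨z, hz, w, hw, h1⟩ := Submodule.mem_sup.mp hf
    obtain ⟨v, rfl⟩ := Ideal.mem_span_singleton'.mp hw
    rw [← h1, map_add]
    apply Ideal.add_mem _ (Ideal.mem_sup_left (hJ z hz j))
    rcases Nat.lt_or_ge j 1 with h3 | h3
    · rw [comp_mul_lt hl v h3]
      exact Ideal.zero_mem _
    · obtain ⟨e, rfl⟩ : ∃ e, j = e + 1 := ⟨j - 1, by omega⟩
      rw [comp_mul hl]
      exact Ideal.mem_sup_right (Ideal.mem_span_singleton'.mpr ⟨_, rfl⟩)
  -- the Hilbert function is constant
  have hconst : ∀ j, N ≤ j → hf J (j + 1) = hf J j := by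
    intro j hj
    have hinj : Function.Injective (muq J l hl j) :=
      (muq_injective_iff hl j).mpr fun a _ h => hlr a h
    have hsurj : Function.Surjective (muq J l hl j) :=
      muq_surjective hJ hl j fun a ha => h1 _ (by omega) a ha
    exact (LinearEquiv.ofBijective _ ⟨hinj, hsurj⟩).finrank_eq.symm
  have hconst' : ∀ e, hf J (N + e) = hf J N := by
    intro e
    induction e with
    | zero => rfl
    | succ e ih => rw [← ih, ← hconst (N + e) (by omega)]; rfl
  have hreg : Rg g J := by
    -- large degrees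
    have hbig : ∀ j, N ≤ j → ∀ a : MvPolynomial (Fin n) ℂ, a.IsHomogeneous j → a * g ∈ J →
        a ∈ J := by
      intro j hj
      rw [← muq_injective_iff hg j]
      have hsurj : Function.Surjective (muq J g hg j) :=
        muq_surjective hJ hg j fun a ha => h2 _ (by omega) a ha
      rw [LinearMap.injective_iff_surjective_of_finrank_eq_finrank]
      · exact hsurj
      · show hf J j = hf J (j + d)
        obtain ⟨e, rfl⟩ := Nat.exists_eq_add_of_le hj
        rw [hconst', add_assoc, hconst']
    have hall : ∀ a : MvPolynomial (Fin n) ℂ, ∀ m : ℕ, a * l ^ m ∈ J → a ∈ J := by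
      intro a m
      induction m with
      | zero => intro h; simpa using h
      | succ m ih =>
        intro h
        apply ih
        apply hlr
        rw [mul_assoc, ← pow_succ]
        exact h
    intro a ha
    rw [← sum_homogeneousComponent a]
    apply Ideal.sum_mem
    intro j _
    have h3 : homogeneousComponent j a * g ∈ J := by
      rw [← comp_mul hg]
      exact hJ _ ha _
    apply hall _ N
    apply hbig (j + N) (by omega)
    · have := (homogeneousComponent_isHomogeneous j a).mul (hl.pow N)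
      rwa [one_mul] at this
    · have h4 : homogeneousComponent j a * l ^ N * g = homogeneousComponent j a * g * l ^ N := by
        ring
      rw [h4]
      exact J.mul_mem_right _ h3
  refine ⟨hreg, ?_⟩
  -- the number
  have count : ∀ (f : MvPolynomial (Fin n) ℂ) (e : ℕ) (_ : f.IsHomogeneous e) (_ : Rg f J)
      (_ : HomI (J ⊔ Ideal.span {f}))
      (_ : ∀ j, N ≤ j → ∀ a : MvPolynomial (Fin n) ℂ, a.IsHomogeneous j →
        a ∈ J ⊔ Ideal.span {f}),
      Module.finrank ℂ (MvPolynomial (Fin n) ℂ ⧸ (J ⊔ Ideal.span {f})) = e * hf J N := by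
    intro f e hfe hrf hHf hfN
    rw [finrank_quot hHf (N := N + e) fun j hj a ha => hfN j (by omega) a ha]
    have h3 : ∀ j ∈ Finset.range N, hf (J ⊔ Ideal.span {f}) (j + e) + hf J j = hf J (j + e) := by
      intro j _
      rw [hf_add hJ hfe hrf j, add_comm]
    have h4 := Finset.sum_congr rfl h3
    rw [Finset.sum_add_distrib] at h4
    have h5 : ∀ F : ℕ → ℕ, ∑ j ∈ Finset.range (N + e), F j =
        ∑ j ∈ Finset.range e, F j + ∑ j ∈ Finset.range N, F (j + e) := by
      intro F
      rw [add_comm N e, Finset.sum_range_add]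
      congr 1
      apply Finset.sum_congr rfl
      intro j _
      rw [add_comm]
    have h6 : ∀ F : ℕ → ℕ, ∑ j ∈ Finset.range (N + e), F j =
        ∑ j ∈ Finset.range N, F j + ∑ j ∈ Finset.range e, F (N + j) := by
      intro F
      rw [Finset.sum_range_add]
    have h7 : ∑ j ∈ Finset.range e, hf J (N + j) = e * hf J N := by
      rw [Finset.sum_congr rfl fun j _ => hconst' j]
      simp
    have h8 : ∑ j ∈ Finset.range e, hf (J ⊔ Ideal.span {f}) j = ∑ j ∈ Finset.range e, hf J j :=
      Finset.sum_congr rfl fun j hj => hf_lt hJ hfe (Finset.mem_range.mp hj)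
    have h9 := h5 (hf J)
    have h10 := h6 (hf J)
    rw [h5, h8]
    omega
  rw [count g d hg hreg hHomg h2, count l 1 hl hlr hHoml h1, one_mul]

/-- the statement proved by induction on the number of variables -/
def CI (n : ℕ) : Prop :=
  ∀ (g : Fin n → MvPolynomial (Fin n) ℂ) (d : Fin n → ℕ), (∀ i, 0 < d i) →
    (∀ i, (g i).IsHomogeneous (d i)) →
    (∀ x : Fin n → ℂ, (∀ i, eval x (g i) = 0) → x = 0) →
    (∀ (A : Finset (Fin n)) (i : Fin n), i ∉ A → Rg (g i) (Ideal.span (g '' A))) ∧
      Module.finrank ℂ (MvPolynomial (Fin n) ℂ ⧸ Ideal.span (Set.range g)) = ∏ i, d i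

lemma ci_zero : CI 0 := by
  intro g d hd hg h0
  refine ⟨fun A i => i.elim0, ?_⟩
  have h1 : Ideal.span (Set.range g) = ⊥ := by
    rw [Set.range_eq_empty]
    exact Ideal.span_empty
  rw [h1, Fin.prod_univ_zero]
  have e : (MvPolynomial (Fin 0) ℂ ⧸ (⊥ : Ideal (MvPolynomial (Fin 0) ℂ))) ≃ₐ[ℂ] ℂ :=
    (AlgEquiv.quotientBot ℂ _).trans (isEmptyAlgEquiv ℂ (Fin 0))
  rw [e.toLinearEquiv.finrank_eq]
  exact Module.finrank_self ℂ

lemma homI_span_image {ι : Type} {g : ι → MvPolynomial (Fin n) ℂ}
    (hg : ∀ i, ∃ d, (g i).IsHomogeneous d) (A : Set ι) : HomI (Ideal.span (g '' A)) := by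
  apply homI_span
  rintro _ ⟨x, _, rfl⟩
  exact hg x

/-- everything for one choice of the last form -/
lemma ci_aux (hn : CI n) (g : Fin (n + 1) → MvPolynomial (Fin (n + 1)) ℂ) (d : Fin (n + 1) → ℕ)
    (hd : ∀ i, 0 < d i) (hg : ∀ i, (g i).IsHomogeneous (d i))
    (h0 : ∀ x : Fin (n + 1) → ℂ, (∀ i, eval x (g i) = 0) → x = 0) (i0 : Fin (n + 1)) :
    (∀ (A : Finset (Fin n)) (i : Fin n), i ∉ A →
      Rg (g (i0.succAbove i)) (Ideal.span ((fun j => g (i0.succAbove j)) '' A))) ∧
    Rg (g i0) (Ideal.span ((fun j => g (i0.succAbove j)) '' Set.univ)) ∧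
    Module.finrank ℂ (MvPolynomial (Fin (n + 1)) ℂ ⧸ Ideal.span (Set.range g)) = ∏ i, d i := by
  classical
  set h : Fin n → MvPolynomial (Fin (n + 1)) ℂ := fun j => g (i0.succAbove j) with hh
  have hhh : ∀ i, ∃ e, (h i).IsHomogeneous e := fun i => ⟨_, hg _⟩
  set J : Ideal (MvPolynomial (Fin (n + 1)) ℂ) := Ideal.span (h '' Set.univ) with hJdef
  have hJ : HomI J := homI_span_image hhh _
  have hzero : ∀ x : Fin (n + 1) → ℂ, (∀ f ∈ J, eval x f = 0) → eval x (g i0) = 0 → x = 0 := by
    intro x h1 h2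
    apply h0 x
    intro i
    by_cases hi : i = i0
    · rw [hi]; exact h2
    · obtain ⟨j, rfl⟩ := Fin.exists_succAbove_eq hi
      exact h1 _ (Ideal.subset_span ⟨j, trivial, rfl⟩)
  obtain ⟨a, ha⟩ := exists_ell hJ (hd i0) (hg i0) hzero
  -- the induction hypothesis in the hyperplane
  obtain ⟨hr, hfr⟩ := hn (fun j => pia a (h j)) (fun j => d (i0.succAbove j)) (fun j => hd _)
    (fun j => pia_hom a (hg _)) (by
      intro y hy
      apply ha y
      intro f hf
      have h1 : Ideal.span (h '' Set.univ) ≤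
          Ideal.comap (pia a).toRingHom (RingHom.ker (eval y)) := by
        rw [Ideal.span_le]
        rintro _ ⟨j, _, rfl⟩
        exact hy j
      exact h1 hf)
  have hmap : ∀ A : Set (Fin n), (Ideal.span (h '' A)).map (pia a) =
      Ideal.span ((fun j => pia a (h j)) '' A) := by
    intro A
    rw [Ideal.map_span, Set.image_image]
  have hlift := lift_reg a h hhh (by
    intro A i hi
    rw [hmap]
    exact hr A i hi)
  have hlJ : Rg (ell a) J := by
    have h1 := (hlift Finset.univ).1
    rwa [Finset.coe_univ] at h1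
  -- degrees
  obtain ⟨N1, hN1⟩ := forms_mem (I := J ⊔ Ideal.span {ell a}) (by
    intro x hx
    have h1 : eval x (ell a) = 0 := hx _ (Ideal.mem_sup_right (Ideal.subset_span rfl))
    have h2 : x = pt a (fun i => x i.succ) := by
      funext i
      refine Fin.cases ?_ (fun j => ?_) i
      · rw [pt, Fin.cons_zero]
        rw [ell] at h1
        simp only [map_add, map_sum, map_mul, eval_C, eval_X] at h1
        linear_combination h1
      · rw [pt, Fin.cons_succ]
    have h3 : (fun i : Fin n => x i.succ) = 0 := by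
      apply ha
      intro f hf
      rw [eval_pia, ← h2]
      exact hx f (Ideal.mem_sup_left hf)
    rw [h2, h3]
    funext i
    refine Fin.cases ?_ (fun j => ?_) i
    · rw [pt, Fin.cons_zero]
      simp
    · rw [pt, Fin.cons_succ]
      rfl)
  obtain ⟨N2, hN2⟩ := forms_mem (I := J ⊔ Ideal.span {g i0}) (by
    intro x hx
    exact hzero x (fun f hf => hx f (Ideal.mem_sup_left hf))
      (hx _ (Ideal.mem_sup_right (Ideal.subset_span rfl))))
  obtain ⟨hlast, hnum⟩ := last_reg hJ (ell_hom a) hlJ (hd i0) (hg i0) (N := max N1 N2)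
    (fun j hj b hb => hN1 j (le_trans (le_max_left _ _) hj) b hb)
    (fun j hj b hb => hN2 j (le_trans (le_max_right _ _) hj) b hb)
  refine ⟨fun A i hi => (hlift A).2 i hi, hlast, ?_⟩
  -- the number
  have e1 : Ideal.span (Set.range g) = J ⊔ Ideal.span {g i0} := by
    apply le_antisymm
    · rw [Ideal.span_le]
      rintro _ ⟨i, rfl⟩
      by_cases hi : i = i0
      · rw [hi]
        exact Ideal.mem_sup_right (Ideal.subset_span rfl)
      · obtain ⟨j, rfl⟩ := Fin.exists_succAbove_eq hi
        exact Ideal.mem_sup_left (Ideal.subset_span ⟨j, trivial, rfl⟩)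
    · apply sup_le
      · rw [hJdef, Ideal.span_le]
        rintro _ ⟨j, _, rfl⟩
        exact Ideal.subset_span ⟨_, rfl⟩
      · rw [Ideal.span_le, Set.singleton_subset_iff]
        exact Ideal.subset_span ⟨_, rfl⟩
  rw [e1, hnum, Fin.prod_univ_succAbove _ i0, ← hfr]
  congr 1
  -- the hyperplane section
  let φ : MvPolynomial (Fin (n + 1)) ℂ →ₐ[ℂ]
      (MvPolynomial (Fin n) ℂ ⧸ Ideal.span (Set.range fun j => pia a (h j))) :=
    (Ideal.Quotient.mkₐ ℂ _).comp (pia a)
  have hφs : Function.Surjective φ := by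
    intro y
    obtain ⟨f, rfl⟩ := Ideal.Quotient.mk_surjective y
    obtain ⟨f', rfl⟩ := pia_surjective a f
    exact ⟨f', rfl⟩
  have hker : RingHom.ker φ = J ⊔ Ideal.span {ell a} := by
    ext u
    rw [RingHom.mem_ker]
    have h1 : φ u = Ideal.Quotient.mk _ (pia a u) := rfl
    rw [h1, Ideal.Quotient.eq_zero_iff_mem, ← Set.image_univ, ← hmap]
    constructor
    · intro h2
      obtain ⟨z, hz, w, h3⟩ := lift_mem a J h2
      rw [h3]
      exact Ideal.add_mem _ (Ideal.mem_sup_left hz)
        (Ideal.mem_sup_right (Ideal.mem_span_singleton'.mpr ⟨w, rfl⟩))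
    · intro h2
      obtain ⟨z, hz, w, hw, h3⟩ := Submodule.mem_sup.mp h2
      obtain ⟨v, rfl⟩ := Ideal.mem_span_singleton'.mp hw
      rw [← h3, map_add, map_mul, pia_ell, mul_zero, add_zero]
      exact Ideal.mem_map_of_mem _ hz
  rw [← hker]
  exact (Ideal.quotientKerAlgEquivOfSurjective hφs).toLinearEquiv.finrank_eq

theorem ci (n : ℕ) : CI n := by
  induction n with
  | zero => exact ci_zero
  | succ n ih =>
    intro g d hd hg h0
    classical
    refine ⟨?_, (ci_aux ih g d hd hg h0 0).2.2⟩
    intro A i hi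
    by_cases hA : insert i A = Finset.univ
    · have h1 := (ci_aux ih g d hd hg h0 i).2.1
      have h2 : g '' (A : Set (Fin (n + 1))) = (fun j => g (i.succAbove j)) '' Set.univ := by
        ext u
        constructor
        · rintro ⟨j, hj, rfl⟩
          have hji : j ≠ i := by
            rintro rfl
            exact hi hj
          obtain ⟨l, rfl⟩ := Fin.exists_succAbove_eq hji
          exact ⟨l, trivial, rfl⟩
        · rintro ⟨j, _, rfl⟩
          refine ⟨i.succAbove j, ?_, rfl⟩
          have h3 : i.succAbove j ∈ insert i A := by rw [hA]; exact Finset.mem_univ _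
          exact (Finset.mem_insert.mp h3).resolve_left (Fin.succAbove_ne i j)
      rw [h2]
      exact h1
    · obtain ⟨i0, hi0⟩ : ∃ i0, i0 ∉ insert i A := by
        by_contra hcon
        push Not at hcon
        exact hA (Finset.eq_univ_iff_forall.mpr hcon)
      have hne : i ≠ i0 := by
        rintro rfl
        exact hi0 (Finset.mem_insert_self _ _)
      obtain ⟨i', rfl⟩ := Fin.exists_succAbove_eq hne
      have h1 := (ci_aux ih g d hd hg h0 i0).1
        (Finset.univ.filter fun j => i0.succAbove j ∈ A) i' (by simpa using hi)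
      have h2 : g '' (A : Set (Fin (n + 1))) = (fun j => g (i0.succAbove j)) ''
          ((Finset.univ.filter fun j => i0.succAbove j ∈ A : Finset (Fin n)) : Set (Fin n)) := by
        ext u
        constructor
        · rintro ⟨j, hj, rfl⟩
          have hji : j ≠ i0 := by
            rintro rfl
            exact hi0 (Finset.mem_insert_of_mem hj)
          obtain ⟨l, rfl⟩ := Fin.exists_succAbove_eq hji
          exact ⟨l, by simpa using hj, rfl⟩
        · rintro ⟨j, hj, rfl⟩
          exact ⟨i0.succAbove j, by simpa using hj, rfl⟩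
      rw [h2]
      exact h1

end

end Pool.Agent.helper62.BZ
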